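import Mathlib

/-!
Igusa's Poincare series and Bernstein functional equations, for any finite set of variables.
-/

namespace Pool.Agent.MP_5d9b3c_ag.H72

/-- Igusa's Poincare series: the `m`-th coefficient is the number of zeros of `f` in
`(ℤ / p ^ m) ^ n`, times `p ^ (-n m)`, where `n` is the number of variables. -/
noncomputable def poincare {σ : Type} [Fintype σ] (f : MvPolynomial σ ℤ) (p : ℕ) :
    PowerSeries ℚ :=
  PowerSeries.mk fun m : ℕ =>
    (Nat.card {x : σ → ZMod (p ^ m) // MvPolynomial.aeval x f = 0} : ℚ) *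
      (((p : ℚ) ^ Fintype.card σ)⁻¹) ^ m

/-- The Weyl algebra, as the algebra of operators on `ℂ[x_i : i ∈ σ]` generated by the
multiplications by the variables and the derivations `pderiv i`. -/
noncomputable def weyl (σ : Type) : Subalgebra ℂ (Module.End ℂ (MvPolynomial σ ℂ)) :=
  Algebra.adjoin ℂ
    (Set.range (fun i : σ => LinearMap.mulLeft ℂ (MvPolynomial.X i : MvPolynomial σ ℂ)) ∪
      Set.range (fun i : σ => (MvPolynomial.pderiv i :
        Derivation ℂ (MvPolynomial σ ℂ) (MvPolynomial σ ℂ)).toLinearMap))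

/-- `b` satisfies a Bernstein functional equation for `g`: there is an operator
`P(s) = ∑ s ^ t P_t` over the Weyl algebra with `P(m) g ^ (m + 1) = b(m) g ^ m` for every
natural number `m`. -/
def IsBFunction {σ : Type} (g : MvPolynomial σ ℂ) (b : Polynomial ℂ) : Prop :=
  ∃ (d : ℕ) (P : ℕ → Module.End ℂ (MvPolynomial σ ℂ)), (∀ t, P t ∈ weyl σ) ∧
    ∀ m : ℕ, ∑ t ∈ Finset.range d, (m : ℂ) ^ t • P t (g ^ (m + 1)) = b.eval (m : ℂ) • g ^ m

/-- The polynomial `y_1 f_1(x_1, x_2) + ⋯ + y_r f_r(x_1, x_2)` in `r + 2` variables. -/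
noncomputable def lin {A : Type} [CommRing A] {r : ℕ} (f : Fin r → MvPolynomial (Fin 2) A) :
    MvPolynomial (Fin r ⊕ Fin 2) A :=
  ∑ i, MvPolynomial.X (Sum.inl i) * MvPolynomial.rename Sum.inr (f i)

end Pool.Agent.MP_5d9b3c_ag.H72
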