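import Pool.Agent.MP_5d9b3c_ag.H72.Ind
import Pool.Agent.MP_5d9b3c_ag.H21.ResA
import Pool.Agent.MP_5d9b3c_ag.H61.DSideB
import Pool.Agent.MP_5d9b3c_ag.H50.SE
import Pool.Agent.MP_5d9b3c_ag.H76.Count
import Pool.Agent.MP_5d9b3c_ag.H22.Lift

/-!
The Poincare series of a plane ideal is regular away from the roots of the b-function.
-/

namespace Pool.Agent.MP_5d9b3c_ag.H72

open MvPolynomial H21 Set Filter Topology MeasureTheory

variable {p : ℕ} [hp : Fact p.Prime] {r : ℕ}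

theorem bb_log {T : ℂ} {k a : ℕ} (h : bb p T k a = 1) :
    a * -(Real.log ‖T‖ / Real.log p) + k + 1 = 0 := by
  have h0 := norm_ne_zero_iff.2 (bb_one h).1
  have h1 := congrArg (fun z : ℂ => Real.log ‖z‖) h
  have h2 := rr_pos (p := p)
  have h3 := (Real.log_pos (one_lt_p (p := p))).ne'
  simp only [bb, norm_mul, norm_pow, Complex.norm_real, Real.norm_of_nonneg h2.le, norm_one,
    Real.log_one] at h1
  rw [Real.log_mul (by positivity) (by positivity), Real.log_pow, Real.log_pow, rr,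
    Real.log_inv] at h1
  push_cast at h1
  field_simp
  linarith

theorem sh_ne {K : Type} [Field K] {g : RK K} (hg : g ≠ 0) (a c : K) : sh a c g ≠ 0 := by
  have : sh (-a) (-c) (sh a c g) = g :=
    hom_ext (φ := (sh (-a) (-c) : RK K →+* RK K).comp (sh a c : RK K →+* RK K))
      (ψ := RingHom.id _) (by simp [sh]) (by simp [sh]) (by simp [sh]) g
  intro h
  rw [h, map_zero] at this
  exact hg this.symm

/-- the integer polynomials over the p-adic field -/
noncomputable def up (p : ℕ) [Fact p.Prime] (f : Fin r → MvPolynomial (Fin 2) ℤ) (i : Fin r) :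
    RK ℚ_[p] := map (Int.castRingHom ℚ_[p]) (f i)

variable {f : Fin r → MvPolynomial (Fin 2) ℤ}

theorem up_ne (h : ∃ i, f i ≠ 0) : ∃ i, up p f i ≠ 0 :=
  h.imp fun _ hi => (map_ne_zero_iff _ (map_injective _ (RingHom.injective_int _))).2 hi

theorem reg_Z (h : ∃ i, f i ≠ 0) {b : Polynomial ℂ}
    (hb : HasSol (fun i => map (Int.castRingHom ℂ) (f i)) b) {T : ℂ}
    (hT : b.eval ((-(Real.log ‖T‖ / Real.log p) : ℝ) : ℂ) ≠ 0) :
    Rs T (ser 0 0 (Dk 0 0 ×ˢ Dk 0 0) (Fn (up p f))) 0 := by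
  obtain ⟨ι, θ, hθ⟩ := H50.embE p
  let := ι.toAlgebra
  obtain ⟨DS, h1, h2⟩ := H61.dsideB ℚ_[p] θ hθ r _ b (up p f) hT (up_ne h) (by
    convert hb using 2
    rw [up, MvPolynomial.map_map, RingHom.ext_int (RingHom.comp _ _)])
  refine glob_rs (meas_Fn _) fun a c ha hc => ?_
  have hne : ∃ i, sh a c (up p f i) ≠ 0 := (up_ne h).imp fun i hi => sh_ne hi a c
  have hI : ∀ i, sh a c (up p f i) ∈ IntS p := fun i => sh_mem ha hc
    ⟨map (Int.castRingHom ℤ_[p]) (f i), by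
      rw [up, MvPolynomial.map_map, RingHom.ext_int (RingHom.comp _ _)]⟩
  obtain ⟨M, μ, n, h3⟩ := LD_ex hne hI
  obtain ⟨M', μ', n', h4⟩ := LD_ex (hne.imp fun i hi => sw_ne hi) fun i => sw_mem' (hI i)
  obtain ⟨e0, h5⟩ := claim_all h1 (fun k a => bb_log) (H21.resA ℚ_[p] r _ 0 0 hne) (h2 a c) hI
    _ _ _ _ _ _ h3 h4
  refine ⟨e0, fun e1 he1 e2 he2 => (h5 e1 he1 e2 he2).congr ?_ (by simp [RR])⟩
  congr 1
  ext q
  simp only [Fn, ev_sh]

theorem zmod_zero (z : ℤ_[p]) (m : ℕ) : ‖(z : ℚ_[p])‖ ≤ rr p ^ m ↔ PadicInt.toZModPow m z = 0 := by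
  rw [rr_pow_eq, ← RingHom.mem_ker, PadicInt.ker_toZModPow,
    ← PadicInt.norm_le_pow_iff_mem_span_pow, PadicInt.norm_def]

theorem zmod_mem (y : ℤ_[p]) {m : ℕ} (a : ZMod (p ^ m)) :
    (y : ℚ_[p]) ∈ Dk (a.val : ℚ_[p]) m ↔ PadicInt.toZModPow m y = a := by
  have : NeZero (p ^ m) := ⟨pow_ne_zero _ hp.out.ne_zero⟩
  have h := zmod_zero (y - (a.val : ℤ_[p])) m
  rw [map_sub, map_natCast, ZMod.natCast_zmod_val, sub_eq_zero] at h
  rw [mem_Dk, ← h, PadicInt.coe_sub, PadicInt.coe_natCast]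

theorem hom_aeval {A B : Type} [CommRing A] [CommRing B] (φ : A →+* B) (x : Fin 2 → A)
    (g : MvPolynomial (Fin 2) ℤ) : φ (aeval x g) = aeval (fun i => φ (x i)) g := by
  induction g using MvPolynomial.induction_on <;> simp [*]

theorem Fn_le (y : Fin 2 → ℤ_[p]) (m : ℕ) : Fn (up p f) (y 0, y 1) ≤ rr p ^ m ↔
    ∀ i, aeval (fun j => PadicInt.toZModPow m (y j)) (f i) = 0 := by
  rw [Fn, pi_norm_le_iff_of_nonneg (rr_pow_pos m).le]
  refine forall_congr' fun i => ?_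
  rw [← hom_aeval, ← zmod_zero]
  congr! 2
  refine Eq.trans ?_ (hom_aeval (PadicInt.Coe.ringHom (p := p)) y (f i)).symm
  rw [ev, up, eval_map, aeval_def]
  congr 1
  ext j
  fin_cases j <;> rfl

/-- the set where the ideal is small -/
def SS (f : Fin r → RK ℚ_[p]) (m : ℕ) : Set (ℚ_[p] × ℚ_[p]) :=
  (Dk 0 0 ×ˢ Dk 0 0) ∩ {q | Fn f q ≤ rr p ^ m}

theorem mem_SS {f : Fin r → RK ℚ_[p]} {m : ℕ} {q : ℚ_[p] × ℚ_[p]} :
    q ∈ SS f m ↔ q ∈ Dk 0 0 ×ˢ Dk 0 0 ∧ Fn f q ≤ rr p ^ m := Iff.rfl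

theorem meas_SS (f : Fin r → RK ℚ_[p]) (m : ℕ) : MeasurableSet (SS f m) :=
  ((meas_Dk _ _).prod (meas_Dk _ _)).inter (measurableSet_le (meas_Fn f) measurable_const)

theorem lift_ex {q : ℚ_[p] × ℚ_[p]} (h : q ∈ Dk 0 0 ×ˢ Dk 0 0) :
    ∃ y : Fin 2 → ℤ_[p], q = ((y 0 : ℚ_[p]), (y 1 : ℚ_[p])) :=
  ⟨![⟨q.1, by simpa [mem_D0] using h.1⟩, ⟨q.2, by simpa [mem_D0] using h.2⟩], rfl⟩

theorem nu_SS (m : ℕ) :
    ((PowerSeries.coeff m (wser f p) : ℚ) : ℝ) = (nu p 0 0 (SS (up p f) m)).toReal := by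
  classical
  have : NeZero (p ^ m) := ⟨pow_ne_zero _ hp.out.ne_zero⟩
  have h0 : ∀ x : Fin 2 → ZMod (p ^ m),
      Ok (Dk ((x 0).val : ℚ_[p]) m ×ˢ Dk ((x 1).val : ℚ_[p]) m) := fun x =>
    (ok_Dk (IsUltrametricDist.norm_natCast_le_one _ _) m).prod
      (ok_Dk (IsUltrametricDist.norm_natCast_le_one _ _) m)
  have h1 : ∀ (y : Fin 2 → ℤ_[p]) (x : Fin 2 → ZMod (p ^ m)),
      ((y 0 : ℚ_[p]), (y 1 : ℚ_[p])) ∈ Dk ((x 0).val : ℚ_[p]) m ×ˢ Dk ((x 1).val : ℚ_[p]) m ↔
        (fun j => PadicInt.toZModPow m (y j)) = x := fun y x => by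
    rw [mem_prod, zmod_mem, zmod_mem, funext_iff, Fin.forall_fin_two]
  have h2 : SS (up p f) m = ⋃ x ∈ Finset.univ.filter fun x : Fin 2 → ZMod (p ^ m) =>
      ∀ i, aeval x (f i) = 0, Dk ((x 0).val : ℚ_[p]) m ×ˢ Dk ((x 1).val : ℚ_[p]) m := by
    ext q
    simp only [mem_iUnion, Finset.mem_filter, Finset.mem_univ, true_and, exists_prop, mem_SS]
    constructor
    · rintro ⟨h3, h4⟩
      obtain ⟨y, hy⟩ := lift_ex h3
      rw [hy, Fn_le] at h4
      exact ⟨_, h4, hy ▸ (h1 y fun j => PadicInt.toZModPow m (y j)).2 rfl⟩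
    · rintro ⟨x, h3, h4⟩
      have h5 := (h0 x).2 h4
      obtain ⟨y, hy⟩ := lift_ex h5
      rw [hy, h1] at h4
      exact ⟨h5, by rw [hy, Fn_le, h4]; exact h3⟩
  rw [h2, measure_biUnion_finset (fun x _ x' _ hne => Set.disjoint_left.2 fun q h3 h4 => by
    obtain ⟨y, hy⟩ := lift_ex ((h0 x).2 h3)
    rw [hy, h1] at h3 h4
    exact hne (h3.symm.trans h4)) fun x _ => (h0 x).1]
  simp only [nu, Measure.prod_prod, mw_zero, mu_Dk, Finset.sum_const, nsmul_eq_mul, wser,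
    PowerSeries.coeff_mk, ENNReal.toReal_mul, ENNReal.toReal_ofReal (rr_pow_pos (p := p) m).le,
    ENNReal.toReal_natCast, Nat.card_eq_fintype_card, Fintype.card_subtype]
  simp only [rr]
  push_cast
  ring

theorem SS_succ (f : Fin r → RK ℚ_[p]) (m : ℕ) :
    SS f m = (Dk 0 0 ×ˢ Dk 0 0) ∩ {q | Fn f q = rr p ^ m} ∪ SS f (m + 1) := by
  have h : ∀ q, Fn f q < rr p ^ m ↔ Fn f q ≤ rr p ^ (m + 1) := fun q => by
    rw [Fn, pi_norm_lt_iff (rr_pow_pos m), pi_norm_le_iff_of_nonneg (rr_pow_pos _).le]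
    exact forall_congr' fun i => norm_lt_iff _ _
  ext q
  simp only [SS, mem_inter_iff, mem_union, mem_ofPred_eq, ← h, le_iff_eq_or_lt (a := Fn f q),
    and_or_left]

theorem W_eq : (1 - PowerSeries.X) * PowerSeries.map (algebraMap ℚ ℂ) (wser f p) =
    1 - PowerSeries.X * ser 0 0 (Dk 0 0 ×ˢ Dk 0 0) (Fn (up p f)) := by
  have h0 : ∀ m, PowerSeries.coeff m (PowerSeries.map (algebraMap ℚ ℂ) (wser f p)) =
      (nu p 0 0 (SS (up p f) m)).toReal := fun m => by
    rw [← nu_SS]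
    simp
  ext m
  rw [sub_mul, one_mul, map_sub, map_sub]
  cases m with
  | zero =>
    have : Subsingleton (ZMod (p ^ 0)) := ZMod.subsingleton_iff.2 (pow_zero _)
    simp [wser, Subsingleton.elim _ (0 : ZMod (p ^ 0))]
  | succ m =>
    rw [PowerSeries.coeff_succ_X_mul, PowerSeries.coeff_succ_X_mul, h0, h0, SS_succ _ m,
      measure_union (Set.disjoint_left.2 fun q h1 h2 => by
        have := h2.2
        rw [mem_ofPred_eq, h1.2, rr_pow_le] at this
        omega) (meas_SS _ _),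
      ENNReal.toReal_add (nu_fin inter_subset_left) (nu_fin (R := SS _ _) inter_subset_left)]
    simp [ser, PowerSeries.coeff_one]

theorem null_zero {g : RK ℚ_[p]} (hg : g ≠ 0) : nu p 0 0 {q | ev q g = 0} = 0 := by
  have h0 : tp g ≠ 0 := by
    obtain ⟨a, b, _, h⟩ := cf_ex (f := fun _ : Fin 1 => g) ⟨0, hg⟩
    intro h1
    rw [cf_tp, h1] at h
    simp at h
  have h1 : ∀ x y, ev (x, y) g = ((tp g).eval (Polynomial.C x)).eval y := fun x y =>
    hom_ext (φ := ev (x, y)) (ψ := (Polynomial.evalRingHom y).comp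
      ((Polynomial.evalRingHom (Polynomial.C x)).comp (tp (K := ℚ_[p])).toRingHom))
      (by simp) (by simp) (by simp) g
  rw [nu, mw_zero, Measure.measure_prod_null
    (measurableSet_eq_fun (cont_ev g).measurable measurable_const)]
  have h2 := ((Polynomial.finite_setOfPred_isRoot h0).preimage
    (Polynomial.C_injective (R := ℚ_[p])).injOn).measure_zero (mu p)
  refine (measure_eq_zero_iff_ae_notMem.1 h2).mono fun x hx => ?_
  refine Set.Finite.measure_zero ?_ _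
  simpa [h1] using Polynomial.finite_setOfPred_isRoot hx

theorem W_lim (h : ∃ i, f i ≠ 0) : Tendsto
    (fun m => PowerSeries.coeff m (PowerSeries.map (algebraMap ℚ ℂ) (wser f p))) atTop (𝓝 0) := by
  have h1 := tendsto_measure_iInter_atTop (μ := nu p 0 0) (s := SS (up p f))
    (fun m => (meas_SS _ m).nullMeasurableSet)
    (antitone_nat_of_succ_le fun m => by rw [SS_succ _ m]; exact subset_union_right)
    ⟨0, nu_fin inter_subset_left⟩
  obtain ⟨i, hi⟩ := up_ne (p := p) h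
  rw [measure_mono_null (fun q hq => by
    rw [mem_iInter] at hq
    by_contra h2
    obtain ⟨e, he⟩ := ev_small (p := p) (norm_pos_iff.2 h2)
    exact not_le.2 (he e le_rfl) ((norm_le_pi_norm (fun i => ev q (up p f i)) i).trans (hq e).2))
    (null_zero hi)] at h1
  have h2 := (Complex.continuous_ofReal.tendsto _).comp
    ((ENNReal.tendsto_toReal ENNReal.zero_ne_top).comp h1)
  refine (by simpa [Function.comp_def] using h2 : Tendsto (fun m => ((nu p 0 0 (SS (up p f) m)).toReal : ℂ)) atTop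
    (𝓝 0)).congr fun m => ?_
  rw [← nu_SS]
  simp

theorem lim_mul {W : PowerSeries ℂ} (h : Tendsto (fun m => PowerSeries.coeff m W) atTop (𝓝 0))
    (Q : Polynomial ℂ) :
    Tendsto (fun m => PowerSeries.coeff m ((Q : PowerSeries ℂ) * W)) atTop (𝓝 0) := by
  induction Q using Polynomial.induction_on' with
  | add P Q h1 h2 => simpa [add_mul] using h1.add h2
  | monomial n a =>
    rw [← tendsto_add_atTop_iff_nat n, ← Polynomial.C_mul_X_pow_eq_monomial]
    simpa [mul_assoc, PowerSeries.coeff_X_pow_mul] using h.const_mul a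

theorem reg_W (h : ∃ i, f i ≠ 0) {b : Polynomial ℂ}
    (hb : HasSol (fun i => map (Int.castRingHom ℂ) (f i)) b) {T : ℂ}
    (hT : b.eval ((-(Real.log ‖T‖ / Real.log p) : ℝ) : ℂ) ≠ 0) :
    ∃ P Q : Polynomial ℂ, Q.eval T ≠ 0 ∧
      (Q : PowerSeries ℂ) * PowerSeries.map (algebraMap ℚ ℂ) (wser f p) = P := by
  obtain ⟨P, Q, h1, h2⟩ := (reg_Z h hb hT).reg
  obtain ⟨N, hN⟩ := Polynomial.X_sub_C_dvd_sub_C_eval (p := Q - Polynomial.X * P) (a := 1)
  refine ⟨-N, Q, h1, ?_⟩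
  have h3 := lim_mul (W_lim (p := p) h) Q
  have h4 := W_eq (p := p) (f := f)
  have h5 := congrArg (fun P : Polynomial ℂ => (P : PowerSeries ℂ)) hN
  simp only [Polynomial.coe_sub, Polynomial.coe_mul, Polynomial.coe_X, Polynomial.coe_C,
    map_one, Polynomial.coe_one] at h5
  generalize Polynomial.eval 1 (Q - Polynomial.X * P) = a at h5
  set U := (Q : PowerSeries ℂ) * PowerSeries.map (algebraMap ℚ ℂ) (wser f p) + N with hU
  have h6 : U = PowerSeries.X * U + PowerSeries.C a := by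
    rw [hU]
    linear_combination (Q : PowerSeries ℂ) * h4 - PowerSeries.X * h2 + h5
  have h7 : ∀ m, PowerSeries.coeff m U = a := fun m => by
    induction m with
    | zero => rw [h6]; simp
    | succ m ih => rw [h6]; simp [PowerSeries.coeff_succ_X_mul, ih]
  have h8 : Tendsto (fun m => PowerSeries.coeff m U) atTop (𝓝 0) := by
    have h8 : Tendsto (fun m => N.coeff m) atTop (𝓝 0) := tendsto_const_nhds.congr'
      (eventually_atTop.2 ⟨N.natDegree + 1, fun m hm =>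
        (Polynomial.coeff_eq_zero_of_natDegree_lt hm).symm⟩)
    simpa [hU] using h3.add h8
  simp only [h7] at h8
  have h9 : U = 0 := PowerSeries.ext fun m => by
    rw [h7, map_zero]
    exact tendsto_const_nhds_iff.1 h8
  rw [Polynomial.coe_neg]
  exact eq_neg_of_add_eq_zero_left h9

omit hp in
theorem no_pole {S : PowerSeries ℚ} {A B : Polynomial ℚ} (hAB : IsCoprime A B)
    (hP : (B : PowerSeries ℚ) * S = A) {T : ℂ} (hT : Polynomial.aeval T B = 0)
    {P Q : Polynomial ℂ} (h : (Q : PowerSeries ℂ) * PowerSeries.map (algebraMap ℚ ℂ) S = P) :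
    Q.eval T = 0 := by
  have h3 := congrArg (PowerSeries.map (algebraMap ℚ ℂ)) hP
  rw [map_mul, ← Polynomial.polynomial_map_coe, ← Polynomial.polynomial_map_coe] at h3
  have h5 : Q * A.map (algebraMap ℚ ℂ) = B.map (algebraMap ℚ ℂ) * P := by
    apply Polynomial.coe_injective
    rw [Polynomial.coe_mul, Polynomial.coe_mul, ← h, ← h3]
    ring
  obtain ⟨R, hR⟩ : B.map (algebraMap ℚ ℂ) ∣ Q :=
    (hAB.map (Polynomial.mapRingHom (algebraMap ℚ ℂ))).symm.dvd_of_dvd_mul_right ⟨P, h5⟩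
  rw [hR, Polynomial.eval_mul, Polynomial.eval_map_algebraMap, hT, zero_mul]

theorem main_lin (h : ∃ i, f i ≠ 0) {A B : Polynomial ℚ} (hAB : IsCoprime A B)
    (hP : (B : PowerSeries ℚ) * poincare (lin f) p = A) {T : ℂ} (hT : Polynomial.aeval T B = 0)
    {b : Polynomial ℂ} (hb : IsBFunction (map (Int.castRingHom ℂ) (lin f)) b) :
    b.eval ((-(Real.log ‖T‖ / Real.log p) : ℝ) : ℂ) = 0 := by
  have h0 : map (Int.castRingHom ℂ) (lin f) = lin fun i => map (Int.castRingHom ℂ) (f i) := by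
    simp [lin, map_rename]
  have hp0 : (p : ℂ) ≠ 0 := by exact_mod_cast hp.out.ne_zero
  rw [h0] at hb
  by_contra h1
  obtain ⟨P, Q, h2, h3⟩ := reg_W h (H50.solS.1 r _ b hb) h1
  have h4 := congrArg (PowerSeries.map (algebraMap ℚ ℂ)) (H76.countN p hp.out r f)
  simp only [map_mul, map_sub, map_add, map_one, PowerSeries.map_C, PowerSeries.map_X, map_inv₀,
    map_natCast (algebraMap ℚ ℂ)] at h4
  have h5 := no_pole hAB hP hT (Q := Q * (1 - Polynomial.C (p : ℂ)⁻¹ * Polynomial.X))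
    (P := Polynomial.C (p : ℂ)⁻¹ * Q + (1 - Polynomial.C (p : ℂ)⁻¹) * P) (by
      simp only [Polynomial.coe_sub, Polynomial.coe_mul, Polynomial.coe_X, Polynomial.coe_C,
        Polynomial.coe_one, Polynomial.coe_add]
      linear_combination (Q : PowerSeries ℂ) * h4 + (1 - PowerSeries.C (p : ℂ)⁻¹) * h3)
  have h6 : T = p := by
    simp only [Polynomial.eval_mul, Polynomial.eval_sub, Polynomial.eval_one, Polynomial.eval_C,
      Polynomial.eval_X, mul_eq_zero, h2, false_or] at h5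
    field_simp at h5
    linear_combination -h5
  obtain ⟨d, P, h7, h8⟩ := hb
  refine h1 (Eq.trans ?_ (H22.root_neg_one (fun h9 => ?_) h7 h8))
  · rw [h6, Complex.norm_natCast, div_self (Real.log_pos one_lt_p).ne']
    simp
  · obtain ⟨i, hi⟩ := h
    have h10 := congrArg (pderiv (Sum.inl i)) (totalDegree_eq_zero_iff_eq_C.1 h9)
    have h11 : ∀ g : MvPolynomial (Fin 2) ℂ,
        pderiv (Sum.inl i) (rename (Sum.inr : Fin 2 → Fin r ⊕ Fin 2) g) = 0 := fun g => by
      induction g using MvPolynomial.induction_on <;> simp [*]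
    simp only [lin, map_sum, Derivation.leibniz, h11, zero_add, pderiv_C, pderiv_X,
      Pi.single_apply, Sum.inl.injEq, smul_eq_mul, mul_ite, mul_one, mul_zero, Finset.sum_ite_eq',
      Finset.mem_univ, if_true] at h10
    rw [map_eq_zero_iff _ (rename_injective _ Sum.inr_injective),
      map_eq_zero_iff _ (map_injective _ (RingHom.injective_int _))] at h10
    exact hi h10

theorem main_curve {g : MvPolynomial (Fin 2) ℤ} (h : g ≠ 0) {A B : Polynomial ℚ}
    (hAB : IsCoprime A B) (hP : (B : PowerSeries ℚ) * poincare g p = A) {T : ℂ}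
    (hT : Polynomial.aeval T B = 0) {b : Polynomial ℂ}
    (hb : IsBFunction (map (Int.castRingHom ℂ) g) b) :
    b.eval ((-(Real.log ‖T‖ / Real.log p) : ℝ) : ℂ) = 0 := by
  by_contra h1
  obtain ⟨P, Q, h2, h3⟩ := reg_W (f := ![g]) ⟨0, h⟩ (by
    convert H50.solS.2 _ b hb using 2 with i
    fin_cases i
    rfl) h1
  refine h2 (no_pole hAB hP hT (Eq.trans ?_ h3))
  simp [poincare, wser]

end Pool.Agent.MP_5d9b3c_ag.H72
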