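import Pool.Agent.MP_5d9b3c_ag.H21.ResAux

/-!
Coefficients of the charts.
-/

namespace Pool.Agent.MP_5d9b3c_ag.H72

open MvPolynomial H21

variable {K : Type} [Field K] {r : ℕ}

theorem mon_eq (s : Fin 2 →₀ ℕ) (a b : ℕ) :
    s = Finsupp.single 0 a + Finsupp.single 1 b ↔ s 0 = a ∧ s 1 = b := by
  constructor
  · rintro rfl
    simp
  · rintro ⟨rfl, rfl⟩
    ext i
    fin_cases i <;> simp

theorem cf_monomial (s : Fin 2 →₀ ℕ) (v : K) (a b : ℕ) :
    cf (monomial s v) a b = if s 0 = a ∧ s 1 = b then v else 0 := by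
  simp only [cf, coeff_monomial, mon_eq]

theorem cf_add (g h : RK K) (a b : ℕ) : cf (g + h) a b = cf g a b + cf h a b := coeff_add _ _ _

theorem mono_eq (s : Fin 2 →₀ ℕ) (v : K) : monomial s v = C v * X 0 ^ s 0 * X 1 ^ s 1 := by
  rw [monomial_eq, Finsupp.prod_fintype _ _ (by simp), Fin.prod_univ_two, mul_assoc]

theorem cf_eq (g : RK K) (s : Fin 2 →₀ ℕ) : cf g (s 0) (s 1) = coeff s g := by
  rw [cf, ← (mon_eq s _ _).2 ⟨rfl, rfl⟩]

/-- polynomials in `x` over polynomials in `y` -/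
noncomputable def tp : RK K →ₐ[K] Polynomial (Polynomial K) :=
  aeval ![Polynomial.X, Polynomial.C Polynomial.X]

@[simp] theorem tp_X0 : tp (X 0 : RK K) = Polynomial.X := by simp [tp]
@[simp] theorem tp_X1 : tp (X 1 : RK K) = Polynomial.C Polynomial.X := by simp [tp]
@[simp] theorem tp_C (a : K) : tp (C a : RK K) = Polynomial.C (Polynomial.C a) := tp.commutes a

theorem cf_tp (g : RK K) (a b : ℕ) : cf g a b = ((tp g).coeff a).coeff b := by
  induction g using MvPolynomial.induction_on' with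
  | add g h hg hh => simp [cf_add, hg, hh]
  | monomial s v =>
    rw [cf_monomial, mono_eq]
    simp only [map_mul, map_pow, tp_C, tp_X0, tp_X1]
    rw [← Polynomial.C_pow, Polynomial.coeff_mul_C, Polynomial.coeff_C_mul, Polynomial.coeff_X_pow]
    by_cases h1 : a = s 0 <;> by_cases h2 : b = s 1 <;>
      simp [h1, h2, Polynomial.coeff_X_pow, eq_comm]

theorem tp_zero (g : RK K) : (tp g).coeff 0 = e0 g :=
  hom_ext (φ := Polynomial.constantCoeff.comp (tp (K := K) : RK K →+* _))
    (ψ := (e0 (K := K) : RK K →+* Polynomial K)) (by simp) (by simp) (by simp) g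

theorem cf_zero (g : RK K) : cf g 0 0 = constantCoeff g := by simp [cf, constantCoeff_eq]

theorem cf_sw (g : RK K) (a b : ℕ) : cf (sw g) a b = cf g b a := by
  induction g using MvPolynomial.induction_on' with
  | add g h hg hh => simp [cf_add, hg, hh]
  | monomial s v =>
    have : sw (monomial s v) = monomial (Finsupp.single 0 (s 1) + Finsupp.single 1 (s 0)) v := by
      simp [mono_eq, mul_right_comm]
    simp [this, cf_monomial, and_comm]

/-- dehomogenisation at the point `c` -/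
noncomputable def dh (c : K) : RK K →ₐ[K] Polynomial K := aeval ![1, Polynomial.X + Polynomial.C c]

@[simp] theorem dh_X0 (c : K) : dh c (X 0 : RK K) = 1 := by simp [dh]
@[simp] theorem dh_X1 (c : K) : dh c (X 1 : RK K) = Polynomial.X + Polynomial.C c := by simp [dh]
@[simp] theorem dh_C (c a : K) : dh c (C a : RK K) = Polynomial.C a := (dh c).commutes a

theorem hc_monomial (s : Fin 2 →₀ ℕ) (v : K) (a : ℕ) :
    homogeneousComponent a (monomial s v) = if a = s 0 + s 1 then monomial s v else 0 :=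
  homogeneousComponent_of_mem (isHomogeneous_monomial v (by simp [Finsupp.degree_eq_sum]))

theorem cf_ch (c : K) (g : RK K) (a b : ℕ) :
    cf (ch c g) a b = (dh c (homogeneousComponent a g)).coeff b := by
  rw [cf_tp]
  induction g using MvPolynomial.induction_on' with
  | add g h hg hh => simp [hg, hh]
  | monomial s v =>
    have : tp (ch c (monomial s v)) =
        Polynomial.C (dh c (monomial s v)) * Polynomial.X ^ (s 0 + s 1) := by
      simp [mono_eq, mul_pow]
      ring
    rw [this, hc_monomial, Polynomial.coeff_C_mul, Polynomial.coeff_X_pow]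
    split_ifs <;> simp

theorem cf_ch0 (g : RK K) (a b : ℕ) :
    cf (ch 0 g) a b = if b ≤ a then cf g (a - b) b else 0 := by
  induction g using MvPolynomial.induction_on' with
  | add g h hg hh =>
    simp only [map_add, cf_add, hg, hh]
    split_ifs <;> simp
  | monomial s v =>
    have : ch 0 (monomial s v) =
        monomial (Finsupp.single 0 (s 0 + s 1) + Finsupp.single 1 (s 1)) v := by
      simp [mono_eq, mul_pow]
      ring
    simp only [this, cf_monomial]
    simp
    split_ifs <;> first | rfl | omega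

theorem hc_sw (g : RK K) (a : ℕ) :
    homogeneousComponent a (sw g) = sw (homogeneousComponent a g) := by
  induction g using MvPolynomial.induction_on' with
  | add g h hg hh => simp [hg, hh]
  | monomial s v =>
    have : sw (monomial s v) = monomial (Finsupp.single 0 (s 1) + Finsupp.single 1 (s 0)) v := by
      simp [mono_eq, mul_right_comm]
    rw [this, hc_monomial, hc_monomial]
    by_cases h : a = s 0 + s 1 <;> simp [add_comm, h, this]

variable {f : Fin r → RK K} {M μ M' μ' D : ℕ}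

theorem LX.uniq (h : LX f M μ) (h' : LX f M' μ') : M = M' ∧ μ = μ' := by
  obtain ⟨i, hi⟩ := h.2
  obtain ⟨j, hj⟩ := h'.2
  have h1 := mt (h'.1 i M μ) hi
  have h2 := mt (h.1 j M' μ') hj
  omega

theorem cf_ex (h : ∃ i, f i ≠ 0) : ∃ a b i, cf (f i) a b ≠ 0 := by
  obtain ⟨i, hi⟩ := h
  obtain ⟨s, hs⟩ := ne_zero_iff.1 hi
  exact ⟨s 0, s 1, i, by rwa [cf_eq]⟩

theorem LX_ex (h : ∃ i, f i ≠ 0) : ∃ M μ, LX f M μ := by
  classical
  have h1 := cf_ex h
  have h2 := Nat.find_spec h1
  refine ⟨Nat.find h1, Nat.find h2, fun i a b hab => ?_, Nat.find_spec h2⟩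
  by_contra h3
  rcases hab with h4 | ⟨rfl, h4⟩
  · exact Nat.find_min h1 h4 ⟨b, i, h3⟩
  · exact Nat.find_min h2 h4 ⟨i, h3⟩

theorem LX_form {a b : ℕ} {z : RK K} {g : Fin r → RK K} (h0 : constantCoeff z = 0)
    (h1 : cf z 0 1 ≠ 0) (hf : ∀ i, f i = X 0 ^ a * z ^ b * g i) (hg : ∃ i, constantCoeff (g i) ≠ 0) :
    LX f a b ∧ ∀ i, cf (f i) a b = cf z 0 1 ^ b * constantCoeff (g i) := by
  obtain ⟨z1, hz⟩ : Polynomial.X ∣ e0 z := by
    rw [Polynomial.X_dvd_iff, ← tp_zero, ← cf_tp, cf_zero, h0]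
  have h2 : cf z 0 1 = z1.coeff 0 := by rw [cf_tp, tp_zero, hz, Polynomial.coeff_X_mul]
  have h3 : ∀ i a' b', cf (f i) a' b' =
      (if a ≤ a' then (tp (z ^ b * g i)).coeff (a' - a) else 0).coeff b' := fun i a' b' => by
    rw [cf_tp, hf, mul_assoc, map_mul, map_pow, tp_X0, Polynomial.coeff_X_pow_mul']
  have h4 : ∀ i b', cf (f i) a b' =
      if b ≤ b' then (z1 ^ b * e0 (g i)).coeff (b' - b) else 0 := fun i b' => by
    rw [h3, if_pos le_rfl, Nat.sub_self, tp_zero, map_mul, map_pow, hz, mul_pow, mul_assoc,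
      Polynomial.coeff_X_pow_mul']
  have h5 : ∀ i, cf (f i) a b = cf z 0 1 ^ b * constantCoeff (g i) := fun i => by
    rw [h4, if_pos le_rfl, Nat.sub_self, Polynomial.mul_coeff_zero, h2, ← tp_zero, ← cf_tp, cf_zero,
      Polynomial.coeff_zero_eq_eval_zero, Polynomial.eval_pow,
      ← Polynomial.coeff_zero_eq_eval_zero]
  refine ⟨⟨fun i a' b' h => ?_, hg.imp fun i hi => ?_⟩, h5⟩
  · rcases h with h | ⟨rfl, h⟩
    · rw [h3, if_neg (by omega), Polynomial.coeff_zero]
    · rw [h4, if_neg (by omega)]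
  · rw [h5]
    exact mul_ne_zero (pow_ne_zero _ h1) hi

theorem LX_old (h : LX (fun i => sw (f i)) M μ) :
    LX (fun i => sw (ch 0 (f i))) M (M + μ) ∧
      ∀ i, cf (sw (ch 0 (f i))) M (M + μ) = cf (sw (f i)) M μ := by
  have h1 : ∀ i, cf (sw (ch 0 (f i))) M (M + μ) = cf (sw (f i)) M μ := fun i => by
    simp [cf_sw, cf_ch0]
  refine ⟨⟨fun i a b hab => ?_, by simpa only [h1] using h.2⟩, h1⟩
  rw [cf_sw, cf_ch0]
  split_ifs with h2
  · rw [← cf_sw]
    exact h.1 i _ _ (by omega)
  · rfl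

theorem Ord_ex (h : ∃ i, f i ≠ 0) : ∃ D, Ord f D := by
  classical
  have h1 : ∃ D, ∃ a b i, a + b = D ∧ cf (f i) a b ≠ 0 := by
    obtain ⟨a, b, i, h1⟩ := cf_ex h
    exact ⟨_, a, b, i, rfl, h1⟩
  obtain ⟨a, b, i, h2, h3⟩ := Nat.find_spec h1
  refine ⟨Nat.find h1, fun i a b hab => ?_, i, fun h4 => h3 ?_⟩
  · by_contra h4
    exact Nat.find_min h1 hab ⟨a, b, i, rfl, h4⟩
  · have := congrArg (coeff (Finsupp.single 0 a + Finsupp.single 1 b)) h4
    rwa [coeff_homogeneousComponent, if_pos (by simp [h2]), coeff_zero] at this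

theorem Ord.pos (h : Ord f D) (h0 : ∀ i, constantCoeff (f i) = 0) : 0 < D := by
  refine Nat.pos_of_ne_zero ?_
  rintro rfl
  obtain ⟨i, hi⟩ := h.2
  rw [homogeneousComponent_zero, ← constantCoeff_eq, h0, map_zero] at hi
  exact hi rfl

theorem Ord.sw (h : Ord f D) : Ord (fun i => sw (f i)) D :=
  ⟨fun i a b hab => by rw [cf_sw, h.1 i b a (by omega)],
    h.2.imp fun i hi => by rw [hc_sw]; exact sw_ne hi⟩

theorem Ord.low (h : Ord f D) (c : K) (i : Fin r) {a : ℕ} (ha : a < D) (b : ℕ) :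
    cf (ch c (f i)) a b = 0 := by
  have : homogeneousComponent a (f i) = 0 := by
    ext s
    rw [coeff_homogeneousComponent, coeff_zero]
    split_ifs with h1
    · rw [← cf_eq]
      exact h.1 i _ _ (by rw [← h1] at ha; simpa [Finsupp.degree_eq_sum] using ha)
    · rfl
  rw [cf_ch, this, map_zero, Polynomial.coeff_zero]

theorem Ord.LX [CharZero K] (h : Ord f D) {c : K} (h' : LX (fun i => ch c (f i)) M μ) : M = D := by
  obtain ⟨i, hi⟩ := h.2
  obtain ⟨j, hj⟩ := h'.2
  refine le_antisymm (not_lt.1 fun h1 => ?_) (not_lt.1 fun h1 => hj (h.low c j h1 μ))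
  refine dehom_ne (homogeneousComponent_isHomogeneous D (f i)) hi c (Polynomial.ext fun b => ?_)
  exact (cf_ch c (f i) D b).symm.trans (h'.1 i D b (Or.inl h1))

/-- the shape of the tangent cone at a critical point -/
structure Crit (f : Fin r → RK K) (k l D : ℕ) (α β : Fin 2 → K) (d κ : Fin 2 → ℕ) (γ : Fin r → K)
    (u : K) : Prop where
  ord : Ord f D
  det : α 0 * β 1 ≠ α 1 * β 0
  hc : ∀ i, homogeneousComponent D (f i) = C (γ i) * ∏ j, (C (α j) * X 0 + C (β j) * X 1) ^ d j
  jac : (X 0 ^ k * X 1 ^ l : RK K) = C u * ∏ j, (C (α j) * X 0 + C (β j) * X 1) ^ κ j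

variable {k l : ℕ} {α β : Fin 2 → K} {d κ : Fin 2 → ℕ} {γ : Fin r → K} {u : K}

theorem Crit.sw (h : Crit f k l D α β d κ γ u) : Crit (fun i => sw (f i)) l k D β α d κ γ u where
  ord := h.ord.sw
  det := by
    rw [mul_comm, mul_comm (β 1)]
    exact h.det.symm
  hc i := by
    rw [hc_sw, h.hc]
    simp [add_comm]
  jac := by
    have := congrArg H72.sw h.jac
    simpa [add_comm, mul_comm] using this

theorem Crit.ne (h : Crit f k l D α β d κ γ u) (j : Fin 2) : α j ≠ 0 ∨ β j ≠ 0 := by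
  have := h.det
  by_contra h1
  push Not at h1
  fin_cases j <;> simp_all

open Classical in
theorem lin_fac (α β : Fin 2 → K) (c : K) (d : Fin 2 → ℕ) : ∃ Q : Polynomial K,
    dh c (∏ j, (C (α j) * X 0 + C (β j) * X 1) ^ d j) =
      Polynomial.X ^ (∑ j, if α j + β j * c = 0 then d j else 0) * Q ∧
    Q.coeff 0 = ∏ j, (if α j + β j * c = 0 then β j else α j + β j * c) ^ d j := by
  refine ⟨∏ j, (if α j + β j * c = 0 then Polynomial.C (β j) else
    Polynomial.C (α j + β j * c) + Polynomial.C (β j) * Polynomial.X) ^ d j, ?_, ?_⟩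
  · rw [← Finset.prod_pow_eq_pow_sum, ← Finset.prod_mul_distrib, map_prod]
    refine Finset.prod_congr rfl fun j _ => ?_
    have : dh c (C (α j) * X 0 + C (β j) * X 1) =
        Polynomial.C (α j + β j * c) + Polynomial.C (β j) * Polynomial.X := by
      simp
      ring
    rw [map_pow, this]
    split_ifs with h
    · rw [h, map_zero, zero_add, mul_pow, mul_comm]
    · simp
  · rw [Polynomial.coeff_zero_eq_eval_zero, Polynomial.eval_prod]
    refine Finset.prod_congr rfl fun j _ => ?_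
    split_ifs <;> simp

theorem pow_uniq {a b : ℕ} {P Q : Polynomial K} (hP : P.coeff 0 ≠ 0) (hQ : Q.coeff 0 ≠ 0)
    (h : Polynomial.X ^ a * P = Polynomial.X ^ b * Q) : a = b ∧ P.coeff 0 = Q.coeff 0 := by
  have h1 := congrArg (Polynomial.coeff · a) h
  have h2 := congrArg (Polynomial.coeff · b) h
  simp only [Polynomial.coeff_X_pow_mul', le_refl, if_true, Nat.sub_self] at h1 h2
  have h3 : a = b := by
    split_ifs at h1 h2 <;> first | omega | exact absurd h1 hP | exact absurd h2.symm hQ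
  subst h3
  simpa using h1

open Classical in
theorem Crit.loc (h : Crit f k l D α β d κ γ u) (c : K) :
    (∀ j, (if α j + β j * c = 0 then β j else α j + β j * c) ≠ 0) ∧ (∃ i, γ i ≠ 0) ∧ u ≠ 0 ∧
    LX (fun i => ch c (f i)) D (∑ j, if α j + β j * c = 0 then d j else 0) ∧
    (∀ i, cf (ch c (f i)) D (∑ j, if α j + β j * c = 0 then d j else 0) =
      γ i * ∏ j, (if α j + β j * c = 0 then β j else α j + β j * c) ^ d j) ∧
    (if c = 0 then l else 0) = (∑ j, if α j + β j * c = 0 then κ j else 0) ∧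
    (if c = 0 then 1 else c ^ l) =
      u * ∏ j, (if α j + β j * c = 0 then β j else α j + β j * c) ^ κ j := by
  have h1 : ∀ j, (if α j + β j * c = 0 then β j else α j + β j * c) ≠ 0 := fun j => by
    split_ifs with h1
    · intro h2
      simpa [h2] using (h.ne j).imp_left fun h3 => h3 (by simpa [h2] using h1)
    · exact h1
  have h2 : ∃ i, γ i ≠ 0 := h.ord.2.imp fun i hi h2 => hi (by rw [h.hc, h2, map_zero, zero_mul])
  have h3 : u ≠ 0 := fun h3 => by simpa [h3] using h.jac
  obtain ⟨Q, h4, h5⟩ := lin_fac α β c d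
  obtain ⟨Q', h6, h7⟩ := lin_fac α β c κ
  have h8 : ∀ i b, cf (ch c (f i)) D b = γ i * if (∑ j, if α j + β j * c = 0 then d j else 0) ≤ b
      then Q.coeff (b - ∑ j, if α j + β j * c = 0 then d j else 0) else 0 := fun i b => by
    rw [cf_ch, h.hc, map_mul, h4, dh_C, Polynomial.coeff_C_mul, Polynomial.coeff_X_pow_mul']
  have h9 : ∀ i, cf (ch c (f i)) D (∑ j, if α j + β j * c = 0 then d j else 0) =
      γ i * ∏ j, (if α j + β j * c = 0 then β j else α j + β j * c) ^ d j := fun i => by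
    rw [h8, if_pos le_rfl, Nat.sub_self, h5]
  refine ⟨h1, h2, h3, ⟨fun i a b hab => ?_, h2.imp fun i hi => ?_⟩, h9, ?_⟩
  · rcases hab with hab | ⟨rfl, hab⟩
    · exact h.ord.low c i hab b
    · rw [h8, if_neg (by omega), mul_zero]
  · rw [h9]
    exact mul_ne_zero hi (Finset.prod_ne_zero_iff.2 fun j _ => pow_ne_zero _ (h1 j))
  have h10 := congrArg (dh c) h.jac
  rw [map_mul (dh c) (C u), h6, mul_left_comm] at h10
  have h11 : (dh c (C u) * Q').coeff 0 =
      u * ∏ j, (if α j + β j * c = 0 then β j else α j + β j * c) ^ κ j := by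
    rw [dh_C, Polynomial.coeff_C_mul, h7]
  have h12 : (if c = 0 then 1 else (Polynomial.X + Polynomial.C c) ^ l : Polynomial K).coeff 0 =
      if c = 0 then 1 else c ^ l := by
    split_ifs <;> simp [Polynomial.coeff_zero_eq_eval_zero]
  rw [← h11, ← h12]
  refine pow_uniq ?_ ?_ (Eq.trans ?_ h10)
  · rw [h12]
    split_ifs with h13 <;> simp [h13]
  · rw [h11]
    exact mul_ne_zero h3 (Finset.prod_ne_zero_iff.2 fun j _ => pow_ne_zero _ (h1 j))
  · split_ifs with h13 <;> simp [h13]

end Pool.Agent.MP_5d9b3c_ag.H72
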