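import Mathlib

/-!
Discs in the field of p-adic numbers.
-/

namespace Pool.Agent.MP_5d9b3c_ag.H72

open Set Metric

/-- the absolute value of `p` -/
noncomputable def rr (p : ℕ) : ℝ := (p : ℝ)⁻¹

variable {p : ℕ} [hp : Fact p.Prime]

theorem one_lt_p : (1 : ℝ) < p := by exact_mod_cast hp.out.one_lt
theorem rr_pos : 0 < rr p := inv_pos.2 (zero_lt_one.trans one_lt_p)
theorem rr_lt_one : rr p < 1 := inv_lt_one_of_one_lt₀ one_lt_p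
theorem rr_pow_pos (e : ℕ) : 0 < rr p ^ e := pow_pos rr_pos e
theorem rr_pow_le_one (e : ℕ) : rr p ^ e ≤ 1 := pow_le_one₀ rr_pos.le rr_lt_one.le
theorem rr_pow_le {a b : ℕ} : rr p ^ a ≤ rr p ^ b ↔ b ≤ a :=
  pow_le_pow_iff_right_of_lt_one₀ rr_pos rr_lt_one
theorem rr_pow_lt {a b : ℕ} : rr p ^ a < rr p ^ b ↔ b < a :=
  pow_lt_pow_iff_right_of_lt_one₀ rr_pos rr_lt_one
theorem rr_pow_inj {a b : ℕ} (h : rr p ^ a = rr p ^ b) : a = b :=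
  le_antisymm (rr_pow_le.1 h.ge) (rr_pow_le.1 h.le)
theorem rr_pow_eq (e : ℕ) : rr p ^ e = (p : ℝ) ^ (-(e : ℤ)) := by
  simp [rr]
theorem norm_pp : ‖(p : ℚ_[p])‖ = rr p := Padic.norm_p
theorem norm_pp_pow (e : ℕ) : ‖(p : ℚ_[p]) ^ e‖ = rr p ^ e := by rw [norm_pow, norm_pp]
theorem pp_ne : (p : ℚ_[p]) ≠ 0 := by exact_mod_cast hp.out.ne_zero

theorem norm_lt_iff (x : ℚ_[p]) (e : ℕ) : ‖x‖ < rr p ^ e ↔ ‖x‖ ≤ rr p ^ (e + 1) := by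
  rw [rr_pow_eq, rr_pow_eq, Padic.norm_le_pow_iff_norm_lt_pow_add_one]
  congr! 2
  push_cast
  ring

theorem norm_ex {x : ℚ_[p]} (h0 : x ≠ 0) (h1 : ‖x‖ ≤ 1) : ∃ e : ℕ, ‖x‖ = rr p ^ e := by
  have h := Padic.norm_eq_zpow_neg_valuation h0
  have h2 : 0 ≤ x.valuation := by
    rw [h, zpow_le_one_iff_right₀ one_lt_p] at h1
    omega
  refine ⟨x.valuation.toNat, ?_⟩
  rw [h, rr_pow_eq, Int.toNat_of_nonneg h2]

theorem ev_small {ε : ℝ} (h : 0 < ε) : ∃ e : ℕ, ∀ e' ≥ e, rr p ^ e' < ε := by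
  obtain ⟨e, he⟩ := exists_pow_lt_of_lt_one h (rr_lt_one (p := p))
  exact ⟨e, fun e' h' => (rr_pow_le.2 h').trans_lt he⟩

theorem norm_add_le' {x y : ℚ_[p]} {a : ℝ} (hx : ‖x‖ ≤ a) (hy : ‖y‖ ≤ a) : ‖x + y‖ ≤ a :=
  (IsUltrametricDist.norm_add_le_max x y).trans (max_le hx hy)

theorem norm_sub_le' {x y : ℚ_[p]} {a : ℝ} (hx : ‖x‖ ≤ a) (hy : ‖y‖ ≤ a) : ‖x - y‖ ≤ a := by
  rw [sub_eq_add_neg]
  exact norm_add_le' hx (by rwa [norm_neg])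

theorem norm_eq_of_lt {V : Type} [SeminormedAddCommGroup V] [IsUltrametricDist V] {x y : V}
    (h : ‖x - y‖ < ‖y‖) : ‖x‖ = ‖y‖ := by
  have := IsUltrametricDist.norm_add_eq_max_of_norm_ne_norm h.ne
  rwa [sub_add_cancel, max_eq_right h.le] at this

/-- the disc `c + p ^ e ℤ_p` -/
def Dk (c : ℚ_[p]) (e : ℕ) : Set ℚ_[p] := closedBall c (rr p ^ e)

theorem mem_Dk {c x : ℚ_[p]} {e : ℕ} : x ∈ Dk c e ↔ ‖x - c‖ ≤ rr p ^ e := by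
  rw [Dk, mem_closedBall, dist_eq_norm]

theorem mem_D0 {x : ℚ_[p]} {e : ℕ} : x ∈ Dk 0 e ↔ ‖x‖ ≤ rr p ^ e := by
  rw [mem_Dk, sub_zero]

theorem self_mem_Dk (c : ℚ_[p]) (e : ℕ) : c ∈ Dk c e := by
  simp [mem_Dk, (rr_pow_pos e).le]

theorem Dk_eq {c c' : ℚ_[p]} {e : ℕ} (h : c' ∈ Dk c e) : Dk c' e = Dk c e := by
  ext x
  rw [mem_Dk] at h
  rw [mem_Dk, mem_Dk]
  constructor
  · intro h1
    simpa using norm_add_le' h1 h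
  · intro h1
    simpa using norm_sub_le' h1 h

theorem Dk_mono (c : ℚ_[p]) {e e' : ℕ} (h : e ≤ e') : Dk c e' ⊆ Dk c e :=
  closedBall_subset_closedBall (rr_pow_le.2 h)

theorem Dk_sub {c : ℚ_[p]} (hc : ‖c‖ ≤ 1) (e : ℕ) : Dk c e ⊆ Dk 0 0 := by
  rw [← Dk_eq (c := 0) (c' := c) (e := 0) (by simpa [mem_D0] using hc)]
  exact Dk_mono c (Nat.zero_le e)

theorem norm_le_of_mem {c x : ℚ_[p]} (hc : ‖c‖ ≤ 1) {e : ℕ} (hx : x ∈ Dk c e) : ‖x‖ ≤ 1 := by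
  simpa [mem_D0] using Dk_sub hc e hx

/-- the centre of the `j`-th subdisc -/
noncomputable def kid (c : ℚ_[p]) (e j : ℕ) : ℚ_[p] := c + j * (p : ℚ_[p]) ^ e

theorem kid_mem (c : ℚ_[p]) (e j : ℕ) : kid c e j ∈ Dk c e := by
  rw [mem_Dk, kid, add_sub_cancel_left, norm_mul, norm_pp_pow]
  exact mul_le_of_le_one_left (rr_pow_pos e).le (IsUltrametricDist.norm_natCast_le_one _ _)

theorem kid_norm {c : ℚ_[p]} (hc : ‖c‖ ≤ 1) (e j : ℕ) : ‖kid c e j‖ ≤ 1 :=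
  norm_le_of_mem hc (kid_mem c e j)

theorem kid_sub (c : ℚ_[p]) (e j : ℕ) : Dk (kid c e j) (e + 1) ⊆ Dk c e := by
  rw [← Dk_eq (kid_mem c e j)]
  exact Dk_mono _ (Nat.le_succ e)

theorem kid_ex {c x : ℚ_[p]} {e : ℕ} (h : x ∈ Dk c e) : ∃ j < p, x ∈ Dk (kid c e j) (e + 1) := by
  rw [mem_Dk] at h
  have h0 : (p : ℚ_[p]) ^ e ≠ 0 := pow_ne_zero _ pp_ne
  have h1 : ‖(x - c) / (p : ℚ_[p]) ^ e‖ ≤ 1 := by
    rw [norm_div, norm_pp_pow, div_le_one (rr_pow_pos e)]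
    exact h
  obtain ⟨j, hj, h2⟩ := PadicInt.exists_mem_range (⟨_, h1⟩ : ℤ_[p])
  refine ⟨j, hj, ?_⟩
  rw [PadicInt.maximalIdeal_eq_span_p, Ideal.mem_span_singleton, ← PadicInt.norm_lt_one_iff_dvd,
    PadicInt.norm_def] at h2
  have h3 : ‖(x - c) / (p : ℚ_[p]) ^ e - j‖ < 1 := by simpa using h2
  rw [mem_Dk, ← norm_lt_iff, show x - kid c e j = ((x - c) / (p : ℚ_[p]) ^ e - j) * p ^ e by
    rw [kid]; field_simp; ring, norm_mul, norm_pp_pow]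
  exact mul_lt_of_lt_one_left (rr_pow_pos e) h3

theorem kid_uniq {c x : ℚ_[p]} {e j j' : ℕ} (hj : j < p) (hj' : j' < p)
    (h : x ∈ Dk (kid c e j) (e + 1)) (h' : x ∈ Dk (kid c e j') (e + 1)) : j = j' := by
  rw [mem_Dk] at h h'
  have h1 := norm_sub_le' h' h
  rw [← norm_lt_iff, show x - kid c e j' - (x - kid c e j) = ((j - j' : ℤ) : ℚ_[p]) * p ^ e by
    simp only [kid]; push_cast; ring, norm_mul, norm_pp_pow,
    mul_lt_iff_lt_one_left (rr_pow_pos e), Padic.norm_intCast_lt_one_iff] at h1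
  have := Int.eq_zero_of_dvd_of_natAbs_lt_natAbs h1 (by omega)
  omega

theorem Dk_eq_union (c : ℚ_[p]) (e : ℕ) :
    Dk c e = ⋃ j ∈ Finset.range p, Dk (kid c e j) (e + 1) := by
  ext x
  simp only [mem_iUnion, Finset.mem_range, exists_prop]
  exact ⟨kid_ex, fun ⟨j, _, h⟩ => kid_sub c e j h⟩

theorem kid_disj (c : ℚ_[p]) (e : ℕ) :
    PairwiseDisjoint (Finset.range p : Set ℕ) fun j => Dk (kid c e j) (e + 1) := by
  intro j hj j' hj' hne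
  refine Set.disjoint_left.2 fun x h h' => hne (kid_uniq ?_ ?_ h h')
  · simpa using hj
  · simpa using hj'

/-- the compactness principle -/
theorem disc_ind (G : ℚ_[p] → ℕ → Prop)
    (hstep : ∀ c e, ‖c‖ ≤ 1 → (∀ j < p, G (kid c e j) (e + 1)) → G c e)
    (hloc : ∀ c, ‖c‖ ≤ 1 → ∃ e₀, ∀ e ≥ e₀, ∀ c' ∈ Dk c e, G c' e) (c : ℚ_[p]) (e : ℕ)
    (hc : ‖c‖ ≤ 1) : G c e := by
  by_contra h
  have key : ∀ n (x : {x : ℚ_[p] // ‖x‖ ≤ 1 ∧ ¬ G x (e + n)}),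
      ∃ y : {x : ℚ_[p] // ‖x‖ ≤ 1 ∧ ¬ G x (e + (n + 1))}, y.1 ∈ Dk x.1 (e + n) := by
    rintro n ⟨x, h1, h2⟩
    by_contra h3
    refine h2 (hstep x _ h1 fun j _ => ?_)
    by_contra h4
    exact h3 ⟨⟨_, kid_norm h1 _ j, h4⟩, kid_mem _ _ _⟩
  choose nx hnx using key
  let s : ∀ n, {x : ℚ_[p] // ‖x‖ ≤ 1 ∧ ¬ G x (e + n)} := fun n =>
    Nat.rec (motive := fun n => {x : ℚ_[p] // ‖x‖ ≤ 1 ∧ ¬ G x (e + n)}) ⟨c, hc, h⟩ nx n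
  obtain ⟨x, hx⟩ := IsCompact.nonempty_iInter_of_sequence_nonempty_isCompact_isClosed
    (fun n => Dk (s n).1 (e + n)) (fun n => by
      rw [← Dk_eq (hnx n (s n))]
      exact Dk_mono _ (Nat.le_succ _))
    (fun n => ⟨_, self_mem_Dk _ _⟩) (isCompact_closedBall _ _) fun n => isClosed_closedBall
  rw [mem_iInter] at hx
  obtain ⟨e₀, h0⟩ := hloc x (norm_le_of_mem (s 0).2.1 (hx 0))
  refine (s e₀).2.2 (h0 _ (by omega) _ ?_)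
  rw [Dk_eq (hx e₀)]
  exact self_mem_Dk _ _

end Pool.Agent.MP_5d9b3c_ag.H72
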