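import Pool.Agent.MP_5d9b3c_ag.H72.Model

/-!
Gluing the local residues along an exceptional curve.
-/

namespace Pool.Agent.MP_5d9b3c_ag.H72

open Set

variable {p : ℕ} [hp : Fact p.Prime] {k l : ℕ} {F : ℚ_[p] × ℚ_[p] → ℝ} {T : ℂ}

theorem ser_kids {A : Set ℚ_[p]} (hA : Ok1 A) (hF : Measurable F) {c : ℚ_[p]} (hc : ‖c‖ ≤ 1)
    (e : ℕ) : ser k l (A ×ˢ Dk c e) F =
      ∑ j ∈ Finset.range p, ser k l (A ×ˢ Dk (kid c e j) (e + 1)) F := by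
  ext m
  have h0 := fun j => hA.prod (ok_Dk (kid_norm hc e j) (e + 1))
  simp only [ser, map_sum, PowerSeries.coeff_mk]
  rw [Dk_eq_union c e, prod_iUnion₂, iUnion₂_inter, MeasureTheory.measure_biUnion_finset
    (fun j hj j' hj' hne => (Disjoint.set_prod_right (kid_disj c e hj hj' hne) A A).mono
      inter_subset_left inter_subset_left) fun j _ => meas_lev (h0 j).1 hF _,
    ENNReal.toReal_sum fun j _ => nu_fin (inter_subset_left.trans (h0 j).2), Complex.ofReal_sum]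

open Classical in
theorem sum_mem_kids (c x : ℚ_[p]) (e : ℕ) (v : ℂ) :
    (∑ j ∈ Finset.range p, if x ∈ Dk (kid c e j) (e + 1) then v else 0) =
      if x ∈ Dk c e then v else 0 := by
  split_ifs with h
  · obtain ⟨j, hj, h1⟩ := kid_ex h
    rw [Finset.sum_eq_single_of_mem j (Finset.mem_range.2 hj), if_pos h1]
    exact fun j' hj' hne => if_neg fun h2 => hne (kid_uniq (Finset.mem_range.1 hj') hj h2 h1)
  · exact Finset.sum_eq_zero fun j _ => if_neg fun h1 => h (kid_sub c e j h1)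

theorem ex_unif {P : ℕ → ℕ → Prop} (n : ℕ) (h : ∀ j < n, ∃ e0, ∀ e ≥ e0, P j e) :
    ∃ e0, ∀ e ≥ e0, ∀ j < n, P j e := by
  choose! g hg using h
  exact ⟨(Finset.range n).sup g, fun e he j hj =>
    hg j hj e ((Finset.le_sup (f := g) (Finset.mem_range.2 hj)).trans he)⟩

open Classical in
theorem elev {ρ : ℚ_[p] → ℕ → ℂ} {Ro : ℕ → ℂ} (hF : Measurable F)
    (hinv : ∀ c e c', c' ∈ Dk c e → ρ c' e = ρ c e)
    (hadd : ∀ c e, ∑ j ∈ Finset.range p, ρ (kid c e j) (e + 1) = ρ c e)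
    (hloc : ∀ c, ‖c‖ ≤ 1 → ∃ e0, ∀ e1 ≥ e0, ∀ e2 ≥ e0,
      Rs T (ser k l (Dk 0 e1 ×ˢ Dk c e2) F) (ρ c e2 + if c = 0 then Ro e1 else 0)) :
    ∃ e0, ∀ e1 ≥ e0, ∀ e2, Rs T (ser k l (Dk 0 e1 ×ˢ Dk 0 e2) F) (ρ 0 e2 + Ro e1) := by
  have key := disc_ind (fun c e => ∃ e0, ∀ e1 ≥ e0,
    Rs T (ser k l (Dk 0 e1 ×ˢ Dk c e) F) (ρ c e + if 0 ∈ Dk c e then Ro e1 else 0))
    (fun c e hc h => by
      obtain ⟨e0, h0⟩ := ex_unif p h
      refine ⟨e0, fun e1 he => (Rs.sum (Finset.range p) fun j hj =>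
        h0 e1 he j (Finset.mem_range.1 hj)).congr (ser_kids (ok_D0 e1) hF hc e) ?_⟩
      rw [Finset.sum_add_distrib, hadd, sum_mem_kids])
    (fun c hc => by
      obtain ⟨e0, h0⟩ := hloc c hc
      obtain ⟨e', h1⟩ : ∃ e', ∀ e ≥ e', ((0 : ℚ_[p]) ∈ Dk c e ↔ c = 0) := by
        by_cases h : c = 0
        · exact ⟨0, fun e _ => by simp [h, self_mem_Dk]⟩
        obtain ⟨e', h1⟩ := ev_small (p := p) (norm_pos_iff.2 h)
        exact ⟨e', fun e he => by simpa [mem_Dk, h] using h1 e he⟩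
      refine ⟨max e0 e', fun e he c' hc' => ⟨e0, fun e1 he1 => ?_⟩⟩
      rw [Dk_eq hc', hinv c e c' hc', h1 e (le_of_max_le_right he)]
      convert h0 e1 he1 e (le_of_max_le_left he))
  obtain ⟨e0, h0⟩ := hloc 0 (by simp)
  obtain ⟨e', h1⟩ := ex_unif e0 fun j _ => key 0 j (by simp)
  refine ⟨max e0 e', fun e1 he e2 => ?_⟩
  rcases lt_or_ge e2 e0 with h | h
  · simpa [self_mem_Dk] using h1 e1 (le_of_max_le_right he) e2 h
  · simpa using h0 e1 (le_of_max_le_left he) e2 h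

/-- the part of a rectangle in a chart of the blow-up -/
def HH (p : ℕ) [Fact p.Prime] (δ e1 e2 : ℕ) : Set (ℚ_[p] × ℚ_[p]) :=
  {q | q.1 ∈ Dk 0 e1 ∧ q.2 ∈ Dk 0 δ ∧ q.1 * q.2 ∈ Dk 0 e2}

theorem ok_HH (δ e1 e2 : ℕ) : Ok (HH p δ e1 e2) :=
  ⟨((meas_Dk 0 e1).preimage measurable_fst).inter (((meas_Dk 0 δ).preimage measurable_snd).inter
    ((meas_Dk 0 e2).preimage (measurable_fst.mul measurable_snd))),
    fun _ hq => ⟨D0_sub _ hq.1, D0_sub _ hq.2.1⟩⟩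

theorem half {ρ Ro : ℕ → ℂ} {e0 : ℕ} (hF : Measurable F)
    (h : ∀ e1 ≥ e0, ∀ e2, Rs T (ser k l (Dk 0 e1 ×ˢ Dk 0 e2) F) (ρ e2 + Ro e1)) (δ e2 : ℕ) :
    ∀ n, ∀ e1 ≥ e0, e2 ≤ e1 + δ + n → Rs T (ser k l (HH p δ e1 e2) F) (ρ δ + Ro e1) := by
  have base : ∀ e1 ≥ e0, e2 ≤ e1 + δ → Rs T (ser k l (HH p δ e1 e2) F) (ρ δ + Ro e1) := by
    intro e1 he h1
    convert h e1 he δ using 2
    ext q
    refine and_congr_right fun h2 => and_iff_left_of_imp fun h3 => ?_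
    rw [mem_D0] at h2 h3 ⊢
    rw [norm_mul]
    exact ((mul_le_mul h2 h3 (norm_nonneg _) (rr_pow_pos _).le).trans_eq (pow_add _ _ _).symm).trans
      (rr_pow_le.2 h1)
  intro n
  induction n with
  | zero => exact base
  | succ n ih =>
    intro e1 he h1
    by_cases h2 : e2 ≤ e1 + δ
    · exact base e1 he h2
    obtain ⟨m, rfl⟩ : ∃ m, e2 = e1 + m := ⟨e2 - e1, by omega⟩
    have h3 : HH p δ e1 (e1 + m) = Sph p e1 ×ˢ Dk 0 m ∪ HH p δ (e1 + 1) (e1 + m) := by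
      ext q
      have h4 : q.1 ∈ Sph p e1 → (q.1 * q.2 ∈ Dk 0 (e1 + m) ↔ q.2 ∈ Dk 0 m) := fun h4 => by
        rw [mem_D0, mem_D0, norm_mul, mem_Sph.1 h4, pow_add, mul_le_mul_iff_right₀ (rr_pow_pos _)]
      constructor
      · intro h5
        by_cases h6 : q.1 ∈ Dk 0 (e1 + 1)
        · exact Or.inr ⟨h6, h5.2⟩
        · exact Or.inl ⟨⟨h5.1, h6⟩, (h4 ⟨h5.1, h6⟩).1 h5.2.2⟩
      · rintro (h5 | h5)
        · exact ⟨h5.1.1, Dk_mono _ (by omega) h5.2, (h4 h5.1).2 h5.2⟩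
        · exact ⟨Dk_mono _ (Nat.le_succ _) h5.1, h5.2⟩
    refine (((h e1 he m).sub (h (e1 + 1) (by omega) m)).add
      (ih (e1 + 1) (by omega) (by omega))).congr ?_ (by ring)
    rw [h3, ser_union ((ok_Sph _).prod (ok_D0 _)) (ok_HH _ _ _) hF
      (Set.disjoint_left.2 fun q h5 h6 => h5.1.2 h6.1), ser_splitX (ok_D0 m) hF e1]
    ring

theorem rect_split (hF : Measurable F) (e1 e2 : ℕ) :
    ser k l (Dk 0 e1 ×ˢ Dk 0 e2) F =
      ser (k + l + 1) l (HH p 0 e1 e2) (fun q => F (q.1, q.1 * q.2)) +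
        ser (l + k + 1) k (HH p 1 e2 e1) fun q => F (q.1 * q.2, q.1) := by
  have h0 := (ok_D0 (p := p) e1).prod (ok_D0 e2)
  have h1 : MeasurableSet {q : ℚ_[p] × ℚ_[p] | ‖q.2‖ ≤ ‖q.1‖} :=
    measurableSet_le (by fun_prop) (by fun_prop)
  rw [← inter_union_sdiff (Dk 0 e1 ×ˢ Dk 0 e2) {q : ℚ_[p] × ℚ_[p] | ‖q.2‖ ≤ ‖q.1‖},
    ser_union ⟨h0.1.inter h1, inter_subset_left.trans h0.2⟩ ⟨h0.1.diff h1, sdiff_subset.trans h0.2⟩
      hF (Set.disjoint_left.2 fun q h5 h6 => h6.2 h5.2), ser_swap (h0.1.diff h1) hF]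
  congr 1
  · refine ser_blow (h0.1.inter h1) (ok_HH _ _ _).1 hF fun x t hx => ?_
    have := norm_pos_iff.2 hx
    simp only [HH, mem_inter_iff, mem_prod, mem_ofPred_eq, norm_mul, mem_D0 (x := t), pow_zero,
      mul_le_iff_le_one_right this]
    tauto
  · refine ser_blow ((h0.1.diff h1).preimage measurable_swap) (ok_HH _ _ _).1
      (hF.comp measurable_swap) fun x t hx => ?_
    have := norm_pos_iff.2 hx
    have h2 := norm_lt_iff t 0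
    rw [pow_zero, zero_add] at h2
    simp only [HH, mem_preimage, Prod.swap_prod_mk, mem_sdiff, mem_prod, mem_ofPred_eq, norm_mul,
      mem_D0 (x := t), not_le, mul_lt_iff_lt_one_right this, h2]
    tauto

open Classical in
/-- the blow-up step -/
theorem blow_rs {ρ ρ' : ℚ_[p] → ℕ → ℂ} {Ro Ro' : ℕ → ℂ} (hF : Measurable F)
    (hinv : ∀ c e c', c' ∈ Dk c e → ρ c' e = ρ c e)
    (hadd : ∀ c e, ∑ j ∈ Finset.range p, ρ (kid c e j) (e + 1) = ρ c e)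
    (hloc : ∀ c, ‖c‖ ≤ 1 → ∃ e0, ∀ e1 ≥ e0, ∀ e2 ≥ e0,
      Rs T (ser (k + l + 1) l (Dk 0 e1 ×ˢ Dk c e2) fun q => F (q.1, q.1 * q.2))
        (ρ c e2 + if c = 0 then Ro e1 else 0))
    (hinv' : ∀ c e c', c' ∈ Dk c e → ρ' c' e = ρ' c e)
    (hadd' : ∀ c e, ∑ j ∈ Finset.range p, ρ' (kid c e j) (e + 1) = ρ' c e)
    (hloc' : ∀ c, ‖c‖ ≤ 1 → ∃ e0, ∀ e1 ≥ e0, ∀ e2 ≥ e0,
      Rs T (ser (l + k + 1) k (Dk 0 e1 ×ˢ Dk c e2) fun q => F (q.1 * q.2, q.1))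
        (ρ' c e2 + if c = 0 then Ro' e1 else 0))
    (h0 : ρ 0 0 + ρ' 0 1 = 0) :
    ∃ e0, ∀ e1 ≥ e0, ∀ e2 ≥ e0, Rs T (ser k l (Dk 0 e1 ×ˢ Dk 0 e2) F) (Ro' e2 + Ro e1) := by
  have m1 : Measurable fun q : ℚ_[p] × ℚ_[p] => F (q.1, q.1 * q.2) := by fun_prop
  have m2 : Measurable fun q : ℚ_[p] × ℚ_[p] => F (q.1 * q.2, q.1) := by fun_prop
  obtain ⟨a, ha⟩ := elev m1 hinv hadd hloc
  obtain ⟨b, hb⟩ := elev m2 hinv' hadd' hloc'
  refine ⟨max a b, fun e1 h1 e2 h2 => ((half m1 ha 0 e2 e2 e1 (le_of_max_le_left h1) (by omega)).add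
    (half m2 hb 1 e1 e1 e2 (le_of_max_le_right h2) (by omega))).congr (rect_split hF e1 e2) ?_⟩
  linear_combination -h0

theorem ser_shift0 {A : Set ℚ_[p]} (hA : MeasurableSet A) (hF : Measurable F) (c : ℚ_[p]) (e : ℕ) :
    ser k 0 (A ×ˢ Dk c e) F = ser k 0 (A ×ˢ Dk 0 e) fun q => F (q.1, q.2 + c) :=
  ser_move (hA.prod (meas_Dk _ _)) hF (hA.prod (meas_Dk _ _)) (by fun_prop)
    fun x => ⟨c, fun t => ⟨by simp [mem_Dk], fun _ => rfl⟩⟩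

open Classical in
theorem ser_shift (hF : Measurable F) (c : ℚ_[p]) :
    ∃ e0, ∀ e ≥ e0, ∀ A : Set ℚ_[p], MeasurableSet A → ser k l (A ×ˢ Dk c e) F =
      PowerSeries.C (if c = 0 then 1 else (‖c‖ : ℂ) ^ l) *
        ser k (if c = 0 then l else 0) (A ×ˢ Dk 0 e) fun q => F (q.1, q.2 + c) := by
  by_cases h : c = 0
  · exact ⟨0, fun e _ A _ => by simp [h]⟩
  obtain ⟨e0, h0⟩ := ev_small (p := p) (norm_pos_iff.2 h)
  refine ⟨e0, fun e he A hA => ?_⟩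
  rw [if_neg h, if_neg h, ser_const (norm_nonneg c) (hA.prod (meas_Dk _ _)) hF
    fun q hq => norm_eq_of_lt ((mem_Dk.1 hq.2).trans_lt (h0 e he)), ser_shift0 hA hF]

/-- from local to global regularity -/
theorem glob_rs (hF : Measurable F)
    (h : ∀ a c : ℚ_[p], ‖a‖ ≤ 1 → ‖c‖ ≤ 1 → ∃ e0, ∀ e1 ≥ e0, ∀ e2 ≥ e0,
      Rs T (ser 0 0 (Dk 0 e1 ×ˢ Dk 0 e2) fun q => F (q.1 + a, q.2 + c)) 0) :
    Rs T (ser 0 0 (Dk 0 0 ×ˢ Dk 0 0) F) 0 := by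
  have m1 := hF.comp measurable_swap
  rw [ser_swap' (ok_D0 0) (ok_D0 0) hF]
  refine disc_ind (fun a e => Rs T (ser 0 0 (Dk 0 0 ×ˢ Dk a e) (F ∘ Prod.swap)) 0)
    (fun a e ha h1 => (Rs.sum (Finset.range p) fun j hj => h1 j (Finset.mem_range.1 hj)).congr
      (ser_kids (ok_D0 0) m1 ha e) (by simp)) (fun a ha => ?_) 0 0 (by simp)
  have m2 : Measurable fun q : ℚ_[p] × ℚ_[p] => F (q.1 + a, q.2) := by fun_prop
  obtain ⟨e0, h0⟩ := elev (k := 0) (l := 0) (T := T) (ρ := fun _ _ => 0) (Ro := fun _ => 0) m2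
    (by simp) (by simp) fun c hc => by
      obtain ⟨e0, h0⟩ := h a c ha hc
      refine ⟨e0, fun e1 h1 e2 h2 => (h0 e1 h1 e2 h2).congr ?_ (by simp)⟩
      exact ser_shift0 (meas_Dk _ _) m2 c e2
  refine ⟨e0, fun e he a' ha' => (h0 e he 0).congr ?_ (by simp)⟩
  rw [Dk_eq ha', ser_shift0 (meas_Dk _ _) m1, ser_swap' (ok_D0 e) (ok_D0 0) m2]
  rfl

end Pool.Agent.MP_5d9b3c_ag.H72
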