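import Pool.Agent.MP_5d9b3c_ag.H72.Defs
import Pool.Agent.MP_ee8c61_ag.H4.Step

/-!
Interface statements for the p-adic strong monodromy conjecture for plane ideals.
-/

namespace Pool.Agent.MP_5d9b3c_ag.H72

open MvPolynomial

abbrev RK (K : Type) [Field K] : Type := MvPolynomial (Fin 2) K

section Basic

variable {K : Type} [Field K] {r : ℕ}

/-- the chart `(x, y) ↦ (x, x (y + c))` -/
noncomputable def ch (c : K) : RK K →ₐ[K] RK K := aeval ![X 0, X 0 * (X 1 + C c)]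

/-- exchange of the coordinates -/
noncomputable def sw : RK K →ₐ[K] RK K := aeval ![X 1, X 0]

/-- translation -/
noncomputable def sh (a b : K) : RK K →ₐ[K] RK K := aeval ![X 0 + C a, X 1 + C b]

/-- coefficient of `x ^ a y ^ b` -/
noncomputable def cf (g : RK K) (a b : ℕ) : K :=
  coeff (Finsupp.single 0 a + Finsupp.single 1 b) g

/-- `x ^ M y ^ μ` is the lexicographically least monomial occurring in some `f i` -/
def LX (f : Fin r → RK K) (M μ : ℕ) : Prop :=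
  (∀ i a b, (a < M ∨ (a = M ∧ b < μ)) → cf (f i) a b = 0) ∧ ∃ i, cf (f i) M μ ≠ 0

/-- `D` is the order of the ideal at the origin -/
def Ord (f : Fin r → RK K) (D : ℕ) : Prop :=
  (∀ i a b, a + b < D → cf (f i) a b = 0) ∧ ∃ i, homogeneousComponent D (f i) ≠ 0

open Classical in
/-- principalisation by blowing up rational points; `x ^ k y ^ l` is the Jacobian -/
inductive Res : (Fin r → RK K) → ℕ → ℕ → Prop
  | mono (f : Fin r → RK K) (k l a b : ℕ) (g : Fin r → RK K)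
      (hf : ∀ i, f i = X 0 ^ a * X 1 ^ b * g i) (hg : ∃ i, constantCoeff (g i) ≠ 0) : Res f k l
  | curve (f : Fin r → RK K) (k a b : ℕ) (z : RK K) (g : Fin r → RK K)
      (h0 : constantCoeff z = 0) (h1 : constantCoeff (pderiv 1 z) ≠ 0)
      (hf : ∀ i, f i = X 0 ^ a * z ^ b * g i) (hg : ∃ i, constantCoeff (g i) ≠ 0) : Res f k 0
  | blow (f : Fin r → RK K) (k l : ℕ) (h0 : ∀ i, constantCoeff (f i) = 0) (hne : ∃ i, f i ≠ 0)
      (h1 : ∀ c : K, Res (fun i => ch c (f i)) (k + l + 1) (if c = 0 then l else 0))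
      (h2 : ∀ c : K, Res (fun i => ch c (sw (f i))) (l + k + 1) (if c = 0 then k else 0)) :
      Res f k l

end Basic

open Classical in
/-- what the functional equation gives along the tree of blow-ups when `t` is not a root -/
structure DSide (K : Type) [Field K] (r : ℕ) (t : ℝ) (DS : (Fin r → RK K) → ℕ → ℕ → Prop) :
    Prop where
  sw : ∀ f k l, DS f k l → DS (fun i => sw (f i)) l k
  ch : ∀ f k l, DS f k l → (∀ i, constantCoeff (f i) = 0) → ∀ c : K,
    DS (fun i => ch c (f i)) (k + l + 1) (if c = 0 then l else 0)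
  z : ∀ f k l M μ, DS f k l → LX f M μ → 0 < k → M * t + k + 1 = 0 → μ * t + l + 1 ≠ 0
  root : ∀ f k (w z : RK K) (a b : ℕ) (g : Fin r → RK K), DS f k 0 → constantCoeff w = 0 →
    constantCoeff z = 0 →
    constantCoeff (pderiv 0 w * pderiv 1 z - pderiv 1 w * pderiv 0 z) ≠ 0 → (0 < k → w = X 0) →
    (∀ i, f i = w ^ a * z ^ b * g i) → (∃ i, constantCoeff (g i) ≠ 0) → b * t + 1 ≠ 0
  crit : ∀ f k l D, DS f k l → Ord f D → 0 < D → D * t + k + l + 2 = 0 →
    ∃ (α β : Fin 2 → K) (d κ : Fin 2 → ℕ) (γ : Fin r → K) (u : K),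
      α 0 * β 1 ≠ α 1 * β 0 ∧ d 0 + d 1 = D ∧ κ 0 + κ 1 = k + l ∧
      (∀ i, homogeneousComponent D (f i) =
        C (γ i) * ∏ j, (C (α j) * X 0 + C (β j) * X 1) ^ d j) ∧
      (X 0 ^ k * X 1 ^ l : RK K) = C u * ∏ j, (C (α j) * X 0 + C (β j) * X 1) ^ κ j ∧
      ∀ j, d j * t + κ j + 1 ≠ 0

/-- the functional equation for all `G(f) ^ τ` -/
def HasSol {r : ℕ} (f : Fin r → MP_ee8c61_ag.H4.R2) (b : Polynomial ℂ) : Prop :=
  ∀ (n : ℕ) (G : MvPolynomial (Fin r) ℂ) (t : ℂ), G.IsHomogeneous n → G ≠ 0 →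
    ∃ A B, MP_ee8c61_ag.H4.Sol t b (aeval f G) (Ideal.span (Set.range f)) n 1 A B

/-- the Poincare series of the ideal -/
noncomputable def wser {r : ℕ} (f : Fin r → MvPolynomial (Fin 2) ℤ) (p : ℕ) : PowerSeries ℚ :=
  PowerSeries.mk fun m : ℕ =>
    (Nat.card {x : Fin 2 → ZMod (p ^ m) // ∀ i, aeval x (f i) = 0} : ℚ) * (((p : ℚ) ^ 2)⁻¹) ^ m

/-- Module A: existence of the principalisation. -/
def AStmt : Prop :=
  ∀ (K : Type) [Field K] [CharZero K] (r : ℕ) (f : Fin r → RK K) (k l : ℕ),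
    (∃ i, f i ≠ 0) → Res f k l

/-- Module B: the D-module side. -/
def BStmt : Prop :=
  ∀ (K : Type) [Field K] [Algebra K ℂ] (θ : Fin 3 → ℂ), AlgebraicIndependent K θ →
    ∀ (r : ℕ) (t : ℝ) (b : Polynomial ℂ) (f : Fin r → RK K), b.eval (t : ℂ) ≠ 0 →
      (∃ i, f i ≠ 0) → HasSol (fun i => map (algebraMap K ℂ) (f i)) b →
      ∃ DS, DSide K r t DS ∧ ∀ a c : K, DS (fun i => sh a c (f i)) 0 0

/-- Module S: from the Weyl algebra to `HasSol`. -/
def SStmt : Prop :=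
  (∀ (r : ℕ) (f : Fin r → MP_ee8c61_ag.H4.R2) (b : Polynomial ℂ),
    IsBFunction (lin f) b → HasSol f b) ∧
  ∀ (g : MP_ee8c61_ag.H4.R2) (b : Polynomial ℂ), IsBFunction g b → HasSol ![g] b

/-- Module E: an embedding of the p-adic numbers with room for three parameters. -/
def EStmt : Prop :=
  ∀ (p : ℕ) [Fact p.Prime], ∃ (ι : ℚ_[p] →+* ℂ) (θ : Fin 3 → ℂ),
    @AlgebraicIndependent (Fin 3) ℚ_[p] ℂ θ _ _ ι.toAlgebra

/-- Module N: counting. -/
def NStmt : Prop :=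
  ∀ (p : ℕ), p.Prime → ∀ (r : ℕ) (f : Fin r → MvPolynomial (Fin 2) ℤ),
    (1 - PowerSeries.C (p : ℚ)⁻¹ * PowerSeries.X) * poincare (lin f) p =
      PowerSeries.C (p : ℚ)⁻¹ + PowerSeries.C (1 - (p : ℚ)⁻¹) * wser f p

end Pool.Agent.MP_5d9b3c_ag.H72
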