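import Pool.Agent.MP_5d9b3c_ag.H72.Disc

/-!
The principal value integral over a disc of a product of powers of two linear forms.
-/

namespace Pool.Agent.MP_5d9b3c_ag.H72

variable {p : ℕ} [hp : Fact p.Prime]

theorem val_eq {x y : ℚ_[p]} (hy : y ≠ 0) {e : ℕ} (h : ‖x‖ = ‖y‖ * rr p ^ e) :
    x.valuation = y.valuation + e := by
  have hx : x ≠ 0 := by
    rw [← norm_ne_zero_iff, h]
    exact mul_ne_zero (norm_ne_zero_iff.2 hy) (rr_pow_pos e).ne'
  rw [Padic.norm_eq_zpow_neg_valuation hx, Padic.norm_eq_zpow_neg_valuation hy, rr_pow_eq,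
    ← zpow_add₀ (zero_lt_one.trans one_lt_p).ne',
    zpow_right_inj₀ (zero_lt_one.trans one_lt_p) one_lt_p.ne'] at h
  omega

/-- the root of `α + β t` lies in the disc -/
def Ss (α β c : ℚ_[p]) (e : ℕ) : Prop := ‖α + β * c‖ ≤ ‖β‖ * rr p ^ e

open Classical in
/-- the size of the linear form on the disc -/
noncomputable def ph (a : ℂ) (α β c : ℚ_[p]) (e : ℕ) : ℂ :=
  if Ss α β c e then a ^ (β.valuation + e) else a ^ (α + β * c).valuation

variable {a : ℂ} {α β c c' : ℚ_[p]} {e : ℕ}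

theorem lin_close (α β : ℚ_[p]) (h : c' ∈ Dk c e) :
    ‖α + β * c' - (α + β * c)‖ ≤ ‖β‖ * rr p ^ e := by
  rw [show α + β * c' - (α + β * c) = β * (c' - c) by ring, norm_mul]
  exact mul_le_mul_of_nonneg_left (mem_Dk.1 h) (norm_nonneg _)

theorem Ss_inv (h : c' ∈ Dk c e) : Ss α β c' e ↔ Ss α β c e := by
  have h1 := lin_close α β h
  constructor
  · intro h2
    simpa only [Ss, sub_sub_cancel] using norm_sub_le' h2 h1
  · intro h2
    simpa only [Ss, sub_add_cancel] using norm_add_le' h1 h2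

theorem ph_inv (h : c' ∈ Dk c e) : ph a α β c' e = ph a α β c e := by
  unfold ph
  rw [Ss_inv h]
  split_ifs with h1
  · rfl
  have h2 := not_le.1 h1
  have h3 : α + β * c ≠ 0 := by
    rw [← norm_pos_iff]
    exact lt_of_le_of_lt (mul_nonneg (norm_nonneg _) (rr_pow_pos e).le) h2
  rw [val_eq (e := 0) h3 (by simpa using norm_eq_of_lt ((lin_close α β h).trans_lt h2))]
  simp

theorem Ss.ne (h : Ss α β c e) (h0 : α ≠ 0 ∨ β ≠ 0) : β ≠ 0 := by
  rintro rfl
  simp [Ss] at h h0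
  exact h0 h

theorem Ss_iff (hβ : β ≠ 0) : Ss α β c e ↔ -α / β ∈ Dk c e := by
  rw [Ss, mem_Dk, show α + β * c = -β * (-α / β - c) by field_simp; ring, norm_mul, norm_neg,
    mul_le_mul_iff_right₀ (norm_pos_iff.2 hβ)]

theorem Ss.mono (h : Ss α β c (e + 1)) : Ss α β c e :=
  le_trans h (mul_le_mul_of_nonneg_left (rr_pow_le.2 (Nat.le_succ e)) (norm_nonneg _))

open Classical in
theorem ph_kids (ha : a ≠ 0) (h0 : α ≠ 0 ∨ β ≠ 0) (c : ℚ_[p]) (e : ℕ) :
    ∃ j0 < p, ∀ j < p, (Ss α β (kid c e j) (e + 1) ↔ Ss α β c e ∧ j = j0) ∧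
      ph a α β (kid c e j) (e + 1) = ph a α β c e * if Ss α β c e ∧ j = j0 then a else 1 := by
  by_cases h : Ss α β c e
  · have hβ := h.ne h0
    obtain ⟨j0, h1, h2⟩ := kid_ex ((Ss_iff hβ).1 h)
    refine ⟨j0, h1, fun j hj => ?_⟩
    have h3 : Ss α β (kid c e j) (e + 1) ↔ j = j0 := by
      rw [Ss_iff hβ]
      exact ⟨fun h3 => kid_uniq hj h1 h3 h2, fun h3 => h3 ▸ h2⟩
    refine ⟨by simp [h3, h], ?_⟩
    simp only [ph, h3, h, true_and, if_true]
    split_ifs with h4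
    · rw [Nat.cast_succ, ← add_assoc, zpow_add_one₀ ha]
    have h5 := (Ss_iff hβ).1 ((Ss_inv (kid_mem c e j)).2 h)
    have h6 := mt (Ss_iff hβ).2 (mt h3.1 h4)
    rw [mem_Dk, ← norm_lt_iff, not_lt] at h6
    rw [mul_one, val_eq hβ (e := e)]
    rw [← le_antisymm (mem_Dk.1 h5) h6, ← norm_neg β, ← norm_mul]
    congr 1
    field_simp
    ring
  · refine ⟨0, hp.out.pos, fun j _ => ?_⟩
    have h1 := mt (Ss_inv (kid_mem c e j)).1 h
    have h2 := mt Ss.mono h1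
    refine ⟨by simp [h, h2], ?_⟩
    rw [← ph_inv (kid_mem c e j)]
    simp [ph, h, h1, h2]

open Classical in
theorem ph_swap (ha : a ≠ 0) (h0 : α ≠ 0 ∨ β ≠ 0) : (Ss β α 0 1 ↔ ¬ Ss α β 0 0) ∧
    ph a β α 0 1 = ph a α β 0 0 * if Ss β α 0 1 then a else 1 := by
  have h : Ss β α 0 1 ↔ ¬ Ss α β 0 0 := by
    by_cases hα : α = 0
    · simpa [Ss, hα] using h0
    have := norm_pos_iff.2 hα
    rw [Ss_iff hα, mem_D0, ← zero_add 1, ← norm_lt_iff]
    simp [Ss, div_lt_one this]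
  refine ⟨h, ?_⟩
  unfold ph
  rw [h]
  by_cases h1 : Ss α β 0 0 <;> simp [h1, zpow_add_one₀ ha]

open Classical in
theorem ph_loc (ha : a ≠ 0) (α β c : ℚ_[p]) : ∃ e0, ∀ e ≥ e0,
    (Ss α β c e ↔ α + β * c = 0) ∧ ph a α β c e =
      a ^ (if α + β * c = 0 then β else α + β * c).valuation *
        if α + β * c = 0 then a ^ e else 1 := by
  have key : ∃ e0, ∀ e ≥ e0, (Ss α β c e ↔ α + β * c = 0) := by
    by_cases h : α + β * c = 0
    · exact ⟨0, fun e _ => by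
        simpa [Ss, h] using mul_nonneg (norm_nonneg β) (rr_pow_pos (p := p) e).le⟩
    have h1 : 0 < ‖β‖ + 1 := by positivity
    obtain ⟨e0, h2⟩ := ev_small (p := p) (div_pos (norm_pos_iff.2 h) h1)
    refine ⟨e0, fun e he => iff_of_false (not_le.2 ?_) h⟩
    have h3 := h2 e he
    rw [lt_div_iff₀ h1] at h3
    nlinarith [rr_pow_pos (p := p) e]
  obtain ⟨e0, h⟩ := key
  refine ⟨e0, fun e he => ⟨h e he, ?_⟩⟩
  unfold ph
  rw [h e he]
  split_ifs <;> simp [zpow_add₀ ha]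

/-- the numerical data at a critical point -/
structure Num (p : ℕ) (a u : Fin 2 → ℂ) : Prop where
  mul : (rr p : ℂ) ^ 2 * a 0 * a 1 = 1
  eq : ∀ j, (1 + u j) * (1 - rr p * a j) = 1 - rr p
  add : u 0 + u 1 = -1 - rr p

open Classical in
/-- the principal value integral -/
noncomputable def rho (a u : Fin 2 → ℂ) (α β : Fin 2 → ℚ_[p]) (c : ℚ_[p]) (e : ℕ) : ℂ :=
  ph (a 0) (α 0) (β 0) c e * ph (a 1) (α 1) (β 1) c e * (rr p : ℂ) ^ e *
    (1 + (if Ss (α 0) (β 0) c e then u 0 else 0) + if Ss (α 1) (β 1) c e then u 1 else 0)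

omit hp in
theorem Num.ne {a u : Fin 2 → ℂ} (h : Num p a u) (j : Fin 2) : a j ≠ 0 := by
  have h1 := h.mul
  fin_cases j
  · intro h2
    simp_all
  · intro h2
    simp_all

omit hp in
theorem Num.key {a u : Fin 2 → ℂ} (h : Num p a u) (A B : Prop) [Decidable A] [Decidable B] :
    (rr p : ℂ) * (if A then a 0 else 1) * (if B then a 1 else 1) *
      (1 + (if A then u 0 else 0) + if B then u 1 else 0) =
      rr p + (if A then u 0 else 0) + if B then u 1 else 0 := by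
  split_ifs
  · linear_combination (rr p * a 0 * a 1 - 1) * h.add - h.mul
  · linear_combination -h.eq 0
  · linear_combination -h.eq 1
  · ring

variable {a u : Fin 2 → ℂ} {α β : Fin 2 → ℚ_[p]}

theorem rho_inv (h : c' ∈ Dk c e) : rho a u α β c' e = rho a u α β c e := by
  unfold rho
  rw [ph_inv h, ph_inv h, Ss_inv h, Ss_inv h]

theorem rho_add (h : Num p a u) (h0 : ∀ j, α j ≠ 0 ∨ β j ≠ 0) (c : ℚ_[p]) (e : ℕ) :
    ∑ j ∈ Finset.range p, rho a u α β (kid c e j) (e + 1) = rho a u α β c e := by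
  classical
  obtain ⟨j0, h1, h2⟩ := ph_kids (h.ne 0) (h0 0) c e
  obtain ⟨j1, h3, h4⟩ := ph_kids (h.ne 1) (h0 1) c e
  rw [Finset.sum_congr rfl (g := fun j =>
    ph (a 0) (α 0) (β 0) c e * ph (a 1) (α 1) (β 1) c e * (rr p : ℂ) ^ e *
      (rr p + (if Ss (α 0) (β 0) c e ∧ j = j0 then u 0 else 0) +
        if Ss (α 1) (β 1) c e ∧ j = j1 then u 1 else 0)) fun j hj => by
    rw [Finset.mem_range] at hj
    simp only [rho, h2 j hj, h4 j hj]
    rw [← h.key]
    ring]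
  rw [← Finset.mul_sum, rho, Finset.sum_add_distrib, Finset.sum_add_distrib]
  have h5 : (p : ℂ) ≠ 0 := by exact_mod_cast hp.out.ne_zero
  congr 3
  · simp [rr, h5]
  · split_ifs with h6 <;> simp [h6, h1]
  · split_ifs with h6 <;> simp [h6, h3]

theorem rho_zero (h : Num p a u) (h0 : ∀ j, α j ≠ 0 ∨ β j ≠ 0) :
    rho a u α β 0 0 + rho a u β α 0 1 = 0 := by
  classical
  have h1 := ph_swap (h.ne 0) (h0 0)
  have h2 := ph_swap (h.ne 1) (h0 1)
  have h3 := h.key (Ss (β 0) (α 0) 0 1) (Ss (β 1) (α 1) 0 1)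
  simp only [rho]
  rw [h1.2, h2.2]
  have h4 : (if Ss (α 0) (β 0) 0 0 then u 0 else 0) + (if Ss (β 0) (α 0) 0 1 then u 0 else 0) =
      u 0 := by
    rw [h1.1]
    split_ifs <;> simp
  have h5 : (if Ss (α 1) (β 1) 0 0 then u 1 else 0) + (if Ss (β 1) (α 1) 0 1 then u 1 else 0) =
      u 1 := by
    rw [h2.1]
    split_ifs <;> simp
  linear_combination (ph (a 0) (α 0) (β 0) 0 0 * ph (a 1) (α 1) (β 1) 0 0) *
    (h3 + h4 + h5 + h.add)

end Pool.Agent.MP_5d9b3c_ag.H72
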