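import Pool.Agent.MP_5d9b3c_ag.H72.Leaf
import Pool.Agent.MP_5d9b3c_ag.H72.Rho

/-!
The induction over the tree of blow-ups.
-/

namespace Pool.Agent.MP_5d9b3c_ag.H72

open MvPolynomial H21 Set

variable {p : ℕ} [hp : Fact p.Prime] {r : ℕ}

/-- polynomials with integral coefficients -/
noncomputable def IntS (p : ℕ) [Fact p.Prime] : Subring (RK ℚ_[p]) :=
  (map (σ := Fin 2) (algebraMap ℤ_[p] ℚ_[p])).range

theorem X_mem (i : Fin 2) : X i ∈ IntS p := ⟨X i, by simp⟩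

theorem C_mem {c : ℚ_[p]} (hc : ‖c‖ ≤ 1) : C c ∈ IntS p := ⟨C ⟨c, hc⟩, by simp⟩

theorem hom_mem (φ : RK ℚ_[p] →ₐ[ℚ_[p]] RK ℚ_[p]) (h : ∀ i, φ (X i) ∈ IntS p) {g : RK ℚ_[p]}
    (hg : g ∈ IntS p) : φ g ∈ IntS p := by
  obtain ⟨g, rfl⟩ := hg
  induction g using MvPolynomial.induction_on with
  | C a =>
    rw [map_C, algHom_C]
    exact C_mem a.2
  | add g g' h1 h2 =>
    rw [map_add, map_add]
    exact add_mem h1 h2
  | mul_X g i h1 =>
    rw [map_mul, map_mul, map_X]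
    exact mul_mem h1 (h i)

theorem ch_mem {c : ℚ_[p]} (hc : ‖c‖ ≤ 1) {g : RK ℚ_[p]} (hg : g ∈ IntS p) : ch c g ∈ IntS p :=
  hom_mem _ (Fin.forall_fin_two.2 ⟨by simp [X_mem], by
    simpa using mul_mem (X_mem 0) (add_mem (X_mem 1) (C_mem hc))⟩) hg

theorem sw_mem' {g : RK ℚ_[p]} (hg : g ∈ IntS p) : sw g ∈ IntS p :=
  hom_mem _ (Fin.forall_fin_two.2 ⟨by simp [X_mem], by simp [X_mem]⟩) hg

theorem sh_mem {a c : ℚ_[p]} (ha : ‖a‖ ≤ 1) (hc : ‖c‖ ≤ 1) {g : RK ℚ_[p]} (hg : g ∈ IntS p) :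
    sh a c g ∈ IntS p :=
  hom_mem _ (Fin.forall_fin_two.2 ⟨by simpa [sh] using add_mem (X_mem 0) (C_mem ha),
    by simpa [sh] using add_mem (X_mem 1) (C_mem hc)⟩) hg

theorem pi_ex {v : Fin r → ℚ_[p]} (h : ∃ i, v i ≠ 0) : ∃ i, v i ≠ 0 ∧ ‖v‖ = ‖v i‖ := by
  obtain ⟨j, hj⟩ := h
  obtain ⟨i, -, hi⟩ := Finset.exists_max_image Finset.univ (fun i => ‖v i‖) ⟨j, by simp⟩
  exact ⟨i, norm_pos_iff.1 ((norm_pos_iff.2 hj).trans_le (hi j (by simp))), le_antisymm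
    ((pi_norm_le_iff_of_nonneg (norm_nonneg _)).2 fun k => hi k (by simp)) (norm_le_pi_norm v i)⟩

theorem LD_ex {f : Fin r → RK ℚ_[p]} (h : ∃ i, f i ≠ 0) (hI : ∀ i, f i ∈ IntS p) :
    ∃ M μ c, LD f M μ c := by
  obtain ⟨M, μ, h1⟩ := LX_ex h
  obtain ⟨i, h2, h3⟩ := pi_ex h1.2
  obtain ⟨g, hg⟩ := hI i
  obtain ⟨c, hc⟩ := norm_ex h2 (by
    rw [← hg, cf, coeff_map]
    exact (coeff _ g).2)
  exact ⟨M, μ, c, h1, h3.trans hc⟩

theorem ev_ch (q : ℚ_[p] × ℚ_[p]) (c : ℚ_[p]) (g : RK ℚ_[p]) :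
    ev q (ch c g) = ev (q.1, q.1 * (q.2 + c)) g :=
  hom_ext (φ := (ev q).comp (ch c : RK ℚ_[p] →+* RK ℚ_[p])) (by simp) (by simp) (by simp) g

theorem ev_sw (q : ℚ_[p] × ℚ_[p]) (g : RK ℚ_[p]) : ev q (sw g) = ev (q.2, q.1) g :=
  hom_ext (φ := (ev q).comp (sw (K := ℚ_[p]) : RK ℚ_[p] →+* RK ℚ_[p])) (by simp) (by simp)
    (by simp) g

theorem ev_sh (q : ℚ_[p] × ℚ_[p]) (a c : ℚ_[p]) (g : RK ℚ_[p]) :
    ev q (sh a c g) = ev (q.1 + a, q.2 + c) g :=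
  hom_ext (φ := (ev q).comp (sh a c : RK ℚ_[p] →+* RK ℚ_[p])) (by simp [sh]) (by simp [sh])
    (by simp [sh]) g

variable {T : ℂ} {f : Fin r → RK ℚ_[p]} {k l : ℕ}

open Classical in
/-- `ρ` describes the contribution of the new exceptional curve -/
structure Exc (T : ℂ) (f : Fin r → RK ℚ_[p]) (k l : ℕ) (ρ : ℚ_[p] → ℕ → ℂ) : Prop where
  inv : ∀ c e c', c' ∈ Dk c e → ρ c' e = ρ c e
  add : ∀ c e, ∑ j ∈ Finset.range p, ρ (kid c e j) (e + 1) = ρ c e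
  loc : ∀ c M μ n, LD (fun i => ch c (f i)) M μ n → ∃ e0, ∀ e ≥ e0,
    (if c = 0 then 1 else (‖c‖ : ℂ) ^ l) *
      RR p T (k + l + 1) (if c = 0 then l else 0) M μ n e = ρ c e

open Classical in
theorem loc_rs {ρ : ℚ_[p] → ℕ → ℂ} (hρ : Exc T f k l ρ) (hne : ∃ i, f i ≠ 0)
    (hI : ∀ i, f i ∈ IntS p) {M μ n : ℕ} (hL : LD (fun i => sw (f i)) M μ n) (c : ℚ_[p])
    (hc : ‖c‖ ≤ 1) (ih : Claim T (fun i => ch c (f i)) (k + l + 1) (if c = 0 then l else 0)) :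
    ∃ e0, ∀ e1 ≥ e0, ∀ e2 ≥ e0,
      Rs T (ser (k + l + 1) l (Dk 0 e1 ×ˢ Dk c e2) fun q => Fn f (q.1, q.1 * q.2))
        (ρ c e2 + if c = 0 then RR p T l k M μ n e1 else 0) := by
  have hne' : ∃ i, ch c (f i) ≠ 0 := hne.imp fun i hi => ch_ne hi c
  obtain ⟨M1, μ1, n1, h1⟩ := LD_ex hne' fun i => ch_mem hc (hI i)
  obtain ⟨M2, μ2, n2, h2, h3⟩ : ∃ M2 μ2 n2, LD (fun i => sw (ch c (f i))) M2 μ2 n2 ∧
      ∀ e, (if c = 0 then 1 else (‖c‖ : ℂ) ^ l) *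
        RR p T (if c = 0 then l else 0) (k + l + 1) M2 μ2 n2 e =
        if c = 0 then RR p T l k M μ n e else 0 := by
    by_cases h0 : c = 0
    · subst h0
      obtain ⟨h2, h3⟩ := LX_old hL.1
      refine ⟨M, M + μ, n, ⟨h2, by simpa only [h3] using hL.2⟩, fun e => ?_⟩
      simp only [if_true, one_mul, RR]
      split_ifs with h4
      · rw [show bb p T (k + l + 1) (M + μ) = bb p T l M * bb p T k μ by simp only [bb]; ring,
          h4.2, one_mul]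
      · rfl
    · obtain ⟨M2, μ2, n2, h2⟩ := LD_ex (hne'.imp fun i hi => sw_ne hi)
        fun i => sw_mem' (ch_mem hc (hI i))
      exact ⟨M2, μ2, n2, h2, fun e => by simp [h0, RR]⟩
  obtain ⟨a, ha⟩ := ih _ _ _ _ _ _ h1 h2
  obtain ⟨b, hb⟩ := hρ.loc c _ _ _ h1
  have m := meas_Fn f
  obtain ⟨d, hd⟩ := ser_shift (k := k + l + 1) (l := l) (F := fun q => Fn f (q.1, q.1 * q.2))
    (by fun_prop) c
  refine ⟨max a (max b d), fun e1 he1 e2 he2 => ?_⟩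
  simp only [ge_iff_le, max_le_iff] at he1 he2
  refine ((ha e1 he1.1 e2 he2.1).cmul (if c = 0 then 1 else (‖c‖ : ℂ) ^ l)).congr ?_ ?_
  · rw [hd e2 he2.2.2 _ (meas_Dk _ _)]
    congr 2
    ext q
    simp only [Fn, ev_ch]
  · rw [mul_add, hb e2 he2.2.1, h3]

theorem exc_zero {D : ℕ} (h : Ord f D) (h1 : bb p T (k + l + 1) D ≠ 1) :
    Exc T f k l fun _ _ => 0 :=
  ⟨by simp, by simp, fun c M μ n h2 => ⟨0, fun e _ => by simp [RR, h.LX h2.1, h1]⟩⟩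

theorem norm_val {x : ℚ_[p]} (hx : x ≠ 0) : (‖x‖ : ℂ) = (rr p : ℂ) ^ x.valuation := by
  simp [Padic.norm_eq_zpow_neg_valuation hx, rr]

theorem rr_ne_one : (1 - rr p : ℂ) ≠ 0 := by exact_mod_cast (sub_pos.2 (rr_lt_one (p := p))).ne'

variable {D : ℕ} {α β : Fin 2 → ℚ_[p]} {d κ : Fin 2 → ℕ} {γ : Fin r → ℚ_[p]} {u : ℚ_[p]}

omit hp in
theorem num_ex (h1 : bb p T (k + l + 1) D = 1) (hd : d 0 + d 1 = D) (hκ : κ 0 + κ 1 = k + l)
    (h2 : ∀ j, bb p T (κ j) (d j) ≠ 1) : Num p (fun j => (rr p : ℂ) ^ κ j * T ^ d j)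
      fun j => (1 - rr p) / (1 - bb p T (κ j) (d j)) - 1 := by
  have h3 := fun j => sub_ne_zero.2 (h2 j).symm
  have h4 : bb p T (κ 0) (d 0) * bb p T (κ 1) (d 1) = 1 := by
    rw [← h1, ← hd, ← hκ]
    simp only [bb]
    ring
  refine ⟨?_, fun j => ?_, ?_⟩
  · rw [← h4]
    simp only [bb]
    ring
  · rw [show (rr p : ℂ) * (rr p ^ κ j * T ^ d j) = bb p T (κ j) (d j) by simp only [bb]; ring,
      add_sub_cancel, div_mul_cancel₀ _ (h3 j)]
  · have := h3 0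
    have := h3 1
    field_simp
    linear_combination (rr p - 1) * h4

theorem exc_crit (h : Crit f k l D α β d κ γ u) (h1 : bb p T (k + l + 1) D = 1)
    (hN : Num p (fun j => (rr p : ℂ) ^ κ j * T ^ d j)
      fun j => (1 - rr p) / (1 - bb p T (κ j) (d j)) - 1) {i : Fin r} (hi : γ i ≠ 0)
    (hγ : ‖γ‖ = ‖γ i‖) :
    Exc T f k l fun c e => -T / D * (1 - rr p) * T ^ (γ i).valuation * ‖u‖ *
      rho (fun j => (rr p : ℂ) ^ κ j * T ^ d j)
        (fun j => (1 - rr p) / (1 - bb p T (κ j) (d j)) - 1) α β c e := by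
  classical
  refine ⟨fun c e c' hc => by rw [rho_inv hc],
    fun c e => by rw [← Finset.mul_sum, rho_add hN h.ne], fun c M μ n hL => ?_⟩
  obtain ⟨h2, -, -, h3, h4, h5, h6⟩ := h.loc c
  obtain ⟨rfl, rfl⟩ := hL.1.uniq h3
  obtain ⟨a, ha⟩ := ph_loc (hN.ne 0) (α 0) (β 0) c
  obtain ⟨b, hb⟩ := ph_loc (hN.ne 1) (α 1) (β 1) c
  refine ⟨max a b, fun e he => ?_⟩
  obtain ⟨a1, a2⟩ := ha e (le_of_max_le_left he)
  obtain ⟨b1, b2⟩ := hb e (le_of_max_le_right he)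
  have h7 := hL.2
  simp only [h4] at h7
  simp only [Fin.prod_univ_two, Fin.sum_univ_two] at h5 h6 h7 ⊢
  have t0 := h2 0
  have t1 := h2 1
  rw [rho, a2, b2, a1, b1, h5]
  generalize (if α 0 + β 0 * c = 0 then β 0 else α 0 + β 0 * c) = τ0 at *
  generalize (if α 1 + β 1 * c = 0 then β 1 else α 1 + β 1 * c) = τ1 at *
  have hT := (bb_one h1).1
  have h8 : (n : ℤ) = (γ i).valuation + (d 0 * τ0.valuation + d 1 * τ1.valuation) := by
    have h8 : ‖γ i * (τ0 ^ d 0 * τ1 ^ d 1)‖ = ‖(1 : ℚ_[p])‖ * rr p ^ n := by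
      rw [norm_one, one_mul, ← h7, norm_mul, ← hγ, mul_comm, ← norm_smul]
      congr 1
      ext j
      simp [mul_comm]
    have h9 := val_eq one_ne_zero h8
    rw [Padic.valuation_mul hi (by simp [t0, t1]), Padic.valuation_mul (by simp [t0]) (by simp [t1]),
      Padic.valuation_pow, Padic.valuation_pow, Padic.valuation_one, zero_add] at h9
    exact h9.symm
  have h9 : (if c = 0 then 1 else (‖c‖ : ℂ) ^ l) =
      ‖u‖ * (((rr p : ℂ) ^ τ0.valuation) ^ κ 0 * ((rr p : ℂ) ^ τ1.valuation) ^ κ 1) := by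
    rw [← norm_val t0, ← norm_val t1]
    have := congrArg (fun x : ℚ_[p] => (‖x‖ : ℂ)) h6
    simpa [apply_ite] using this
  have h10 : (if c = 0 then 1 else (‖c‖ : ℂ) ^ l) * T ^ n = T ^ (γ i).valuation * ‖u‖ *
      (((rr p : ℂ) ^ κ 0 * T ^ d 0) ^ τ0.valuation *
        ((rr p : ℂ) ^ κ 1 * T ^ d 1) ^ τ1.valuation) := by
    rw [h9, ← zpow_natCast T n, h8, zpow_add₀ hT, zpow_add₀ hT, mul_zpow, mul_zpow, zpow_mul,
      zpow_mul]
    simp only [← zpow_natCast, ← zpow_mul, mul_comm (κ _ : ℤ)]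
    ring
  generalize (if c = 0 then 1 else (‖c‖ : ℂ) ^ l) = w at *
  rw [RR, if_pos ⟨by omega, h1⟩]
  have key : ∀ B, w * (-T / M * ((1 - rr p) ^ 2 * T ^ n * B ^ e / (1 - B))) =
      -T / M * (1 - rr p) * (w * T ^ n) * (B ^ e * ((1 - rr p) / (1 - B))) := fun B => by ring
  rw [key, h10]
  by_cases z0 : α 0 + β 0 * c = 0 <;> by_cases z1 : α 1 + β 1 * c = 0
  · exact absurd (by linear_combination β 1 * z0 - β 0 * z1) h.det
  · simp only [z0, z1, if_true, if_false, add_zero, bb]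
    ring
  · simp only [z0, z1, if_true, if_false, add_zero, zero_add, bb]
    ring
  · simp only [z0, z1, if_false, add_zero, bb, zero_add, pow_one, pow_zero, mul_one,
      div_self rr_ne_one]
    ring

theorem claim_all {t : ℝ} {DS : (Fin r → RK ℚ_[p]) → ℕ → ℕ → Prop} (hD : DSide ℚ_[p] r t DS)
    (hT : ∀ k a, bb p T k a = 1 → a * t + k + 1 = 0) (h : Res f k l) (h1 : DS f k l)
    (hI : ∀ i, f i ∈ IntS p) : Claim T f k l := by
  induction h with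
  | mono f k l a b g hf hg =>
    have hf' : ∀ i, sw (f i) = X 0 ^ b * X 1 ^ a * sw (g i) := fun i => by simp [hf, mul_comm]
    have hg' : ∃ i, constantCoeff (sw (g i)) ≠ 0 := by simpa using hg
    have h2 : bb p T k a = 1 → 0 < k := fun h2 => Nat.pos_of_ne_zero fun h3 => by
      subst h3
      exact hD.root _ l (X 0) (X 1) b a _ (hD.sw _ _ _ h1) (by simp) (by simp) (by simp) (by simp)
        hf' hg' (by simpa using hT _ _ h2)
    refine claim_mono hf hg (fun h3 => ⟨h2 h3, fun h4 => ?_⟩)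
      fun h3 => Nat.pos_of_ne_zero fun h4 => ?_
    · exact hD.z f k l a b h1 (LX_form (by simp) (by simp [cf_X1]) hf hg).1 (h2 h3) (hT _ _ h3)
        (hT _ _ h4)
    · subst h4
      exact hD.root _ k (X 0) (X 1) a b _ h1 (by simp) (by simp) (by simp) (by simp) hf hg
        (by simpa using hT _ _ h3)
  | curve f k a b z g h0 hz hf hg =>
    refine claim_curve h0 (by rwa [cf_pderiv]) hf hg (fun h2 => Nat.pos_of_ne_zero fun h3 => ?_)
      fun h2 => ?_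
    · subst h3
      exact hD.root _ 0 z (X 0) b a g h1 h0 (by simp) (by simpa using hz) (by simp)
        (fun i => by rw [hf, mul_comm (z ^ b)]) hg (by simpa using hT _ _ h2)
    · exact hD.root _ k (X 0) z a b g h1 (by simp) h0 (by simpa using hz) (by simp) hf hg
        (by simpa using hT _ _ h2)
  | blow f k l h0 hne _ _ ih1 ih2 =>
    obtain ⟨D, hO⟩ := Ord_ex hne
    obtain ⟨ρ, ρ', e1, e2, e3⟩ : ∃ ρ ρ', Exc T f k l ρ ∧ Exc T (fun i => sw (f i)) l k ρ' ∧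
        ρ 0 0 + ρ' 0 1 = 0 := by
      by_cases h2 : bb p T (k + l + 1) D = 1
      swap
      · exact ⟨_, _, exc_zero hO h2, exc_zero hO.sw (by rwa [add_comm l k]), by simp⟩
      obtain ⟨α, β, d, κ, γ, u, c1, c2, c3, c4, c5, c6⟩ := hD.crit f k l D h1 hO (hO.pos h0) (by
        have := hT _ _ h2
        push_cast at this
        linarith)
      have hC : Crit f k l D α β d κ γ u := ⟨hO, c1, c4, c5⟩
      have hN := num_ex h2 c2 c3 fun j h3 => c6 j (hT _ _ h3)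
      obtain ⟨i, hi, hγ⟩ := pi_ex (hC.loc 0).2.1
      refine ⟨_, _, exc_crit hC h2 hN hi hγ, exc_crit hC.sw (by rwa [add_comm l k]) hN hi hγ, ?_⟩
      rw [← mul_add, rho_zero hN hC.ne, mul_zero]
    intro M μ n M' μ' n' hL hL'
    refine blow_rs (meas_Fn f) e1.inv e1.add (fun c hc => loc_rs e1 hne hI hL' c hc
      (ih1 c (hD.ch f k l h1 h0 c) fun i => ch_mem hc (hI i))) e2.inv e2.add (fun c hc => ?_) e3
    have := loc_rs e2 (hne.imp fun i hi => sw_ne hi) (fun i => sw_mem' (hI i)) (M := M) (μ := μ)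
      (n := n) (by simpa using hL) c hc (ih2 c (hD.ch _ l k (hD.sw f k l h1) (by simpa using h0) c)
        fun i => ch_mem hc (sw_mem' (hI i)))
    simpa only [Fn, ev_sw] using this

end Pool.Agent.MP_5d9b3c_ag.H72
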