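import Pool.Agent.MP_5d9b3c_ag.H72.Coef
import Pool.Agent.MP_5d9b3c_ag.H72.Glue

/-!
The residue at the leaves of the tree of blow-ups.
-/

namespace Pool.Agent.MP_5d9b3c_ag.H72

open MvPolynomial H21 Set

variable {p : ℕ} [hp : Fact p.Prime] {r : ℕ}

/-- evaluation at a point of the plane -/
noncomputable def ev (q : ℚ_[p] × ℚ_[p]) : RK ℚ_[p] →+* ℚ_[p] := eval ![q.1, q.2]

@[simp] theorem ev_X0 (q : ℚ_[p] × ℚ_[p]) : ev q (X 0) = q.1 := by simp [ev]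
@[simp] theorem ev_X1 (q : ℚ_[p] × ℚ_[p]) : ev q (X 1) = q.2 := by simp [ev]
@[simp] theorem ev_C (q : ℚ_[p] × ℚ_[p]) (a : ℚ_[p]) : ev q (C a) = a := by simp [ev]

theorem ev_zero (g : RK ℚ_[p]) : ev 0 g = constantCoeff g :=
  hom_ext (φ := ev 0) (ψ := constantCoeff) (by simp) (by simp) (by simp) g

@[fun_prop] theorem cont_ev (g : RK ℚ_[p]) : Continuous fun q => ev q g :=
  (MvPolynomial.continuous_eval g).comp (by fun_prop)

/-- the absolute value of the ideal -/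
noncomputable def Fn (f : Fin r → RK ℚ_[p]) (q : ℚ_[p] × ℚ_[p]) : ℝ := ‖fun i => ev q (f i)‖

theorem meas_Fn (f : Fin r → RK ℚ_[p]) : Measurable (Fn f) :=
  (continuous_pi fun i => cont_ev (f i)).norm.measurable

theorem near {E V : Type} [SeminormedAddCommGroup E] [SeminormedAddCommGroup V] {G : E → V}
    (hG : Continuous G) {ε : ℝ} (h : 0 < ε) :
    ∃ e0, ∀ q, ‖q‖ ≤ rr p ^ e0 → ‖G q - G 0‖ < ε := by
  obtain ⟨δ, h1, h2⟩ := Metric.continuous_iff.1 hG 0 ε h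
  obtain ⟨e, he⟩ := ev_small (p := p) h1
  exact ⟨e, fun q hq => by
    rw [← dist_eq_norm]
    exact h2 q (by simpa using hq.trans_lt (he e le_rfl))⟩

theorem norm_pair {x y : ℚ_[p]} {e0 e1 e2 : ℕ} (h1 : e0 ≤ e1) (h2 : e0 ≤ e2) (hx : x ∈ Dk 0 e1)
    (hy : y ∈ Dk 0 e2) : ‖(x, y)‖ ≤ rr p ^ e0 :=
  max_le (mem_D0.1 (Dk_mono _ h1 hx)) (mem_D0.1 (Dk_mono _ h2 hy))

theorem Fn_form {f g : Fin r → RK ℚ_[p]} {a b : ℕ} {z : RK ℚ_[p]}
    (hf : ∀ i, f i = X 0 ^ a * z ^ b * g i) (hg : ∃ i, constantCoeff (g i) ≠ 0) :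
    ∃ e0, ∀ q, ‖q‖ ≤ rr p ^ e0 →
      Fn f q = ‖fun i => constantCoeff (g i)‖ * (‖q.1‖ ^ a * ‖ev q z‖ ^ b) := by
  have h0 : (fun i => ev 0 (g i)) ≠ 0 := by
    obtain ⟨i, hi⟩ := hg
    exact fun h => hi ((ev_zero _).symm.trans (congrFun h i))
  obtain ⟨e0, h1⟩ := near (p := p) (continuous_pi fun i => cont_ev (g i)) (norm_pos_iff.2 h0)
  refine ⟨e0, fun q hq => ?_⟩
  have h2 := norm_eq_of_lt (h1 q hq)
  simp only [ev_zero] at h2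
  rw [← h2, ← norm_pow, ← norm_pow, ← norm_mul, mul_comm, ← norm_smul, Fn]
  congr 1
  ext i
  simp [hf]

/-- the leading monomial and the size of its coefficient -/
def LD (f : Fin r → RK ℚ_[p]) (M μ c : ℕ) : Prop :=
  LX f M μ ∧ ‖fun i => cf (f i) M μ‖ = rr p ^ c

/-- the residue formula on small rectangles -/
def Claim (T : ℂ) (f : Fin r → RK ℚ_[p]) (k l : ℕ) : Prop :=
  ∀ M μ c M' μ' c', LD f M μ c → LD (fun i => sw (f i)) M' μ' c' →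
    ∃ e0, ∀ e1 ≥ e0, ∀ e2 ≥ e0, Rs T (ser k l (Dk 0 e1 ×ˢ Dk 0 e2) (Fn f))
      (RR p T k l M μ c e2 + RR p T l k M' μ' c' e1)

variable {T : ℂ} {f g : Fin r → RK ℚ_[p]} {k l a b : ℕ} {z : RK ℚ_[p]}

theorem cf_X1 {K : Type} [Field K] : cf (X 1 : RK K) 0 1 = 1 := by simp [cf]

theorem LD_form (h0 : constantCoeff z = 0) (h1 : cf z 0 1 ≠ 0)
    (hf : ∀ i, f i = X 0 ^ a * z ^ b * g i) (hg : ∃ i, constantCoeff (g i) ≠ 0) {M μ c : ℕ}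
    (h : LD f M μ c) :
    M = a ∧ μ = b ∧ rr p ^ c = ‖cf z 0 1‖ ^ b * ‖fun i => constantCoeff (g i)‖ := by
  obtain ⟨h2, h3⟩ := LX_form h0 h1 hf hg
  obtain ⟨rfl, rfl⟩ := h.1.uniq h2
  refine ⟨rfl, rfl, ?_⟩
  rw [← h.2, ← norm_pow, ← norm_smul]
  congr 1
  ext i
  simp [h3]

theorem claim_mono (hf : ∀ i, f i = X 0 ^ a * X 1 ^ b * g i) (hg : ∃ i, constantCoeff (g i) ≠ 0)
    (h1 : bb p T k a = 1 → 0 < k ∧ bb p T l b ≠ 1) (h2 : bb p T l b = 1 → 0 < l) :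
    Claim T f k l := by
  intro M μ c M' μ' c' h h'
  obtain ⟨rfl, rfl, h3⟩ := LD_form (by simp) (by simp [cf_X1]) hf hg h
  obtain ⟨rfl, rfl, h4⟩ := LD_form (z := X 1) (g := fun i => sw (g i)) (a := μ) (b := M) (by simp)
    (by simp [cf_X1]) (fun i => by simp [hf, mul_comm]) (by simpa using hg) h'
  simp only [cf_X1, norm_one, one_pow, one_mul, cc_sw] at h3 h4
  obtain rfl := rr_pow_inj (h3.trans h4.symm)
  obtain ⟨e0, h5⟩ := Fn_form hf hg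
  refine ⟨e0, fun e1 he1 e2 he2 => (model_rs h1 h2 c e1 e2).congr (ser_congr fun q hq => ?_) rfl⟩
  rw [h5 q (norm_pair he1 he2 hq.1 hq.2), Fm, h3, ev_X1]

theorem div_diff (z : RK ℚ_[p]) : ∃ w : ℚ_[p] × ℚ_[p] × ℚ_[p] → ℚ_[p], Continuous w ∧
    w 0 = constantCoeff (pderiv 1 z) ∧
    ∀ x y y', ev (x, y) z - ev (x, y') z = (y - y') * w (x, y, y') := by
  induction z using MvPolynomial.induction_on with
  | C a => exact ⟨0, continuous_zero, by simp, by simp⟩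
  | add z z' h h' =>
    obtain ⟨w, h1, h2, h3⟩ := h
    obtain ⟨w', h1', h2', h3'⟩ := h'
    refine ⟨w + w', h1.add h1', by simp [h2, h2'], fun x y y' => ?_⟩
    simp only [map_add, Pi.add_apply]
    linear_combination h3 x y y' + h3' x y y'
  | mul_X z i h =>
    obtain ⟨w, h1, h2, h3⟩ := h
    fin_cases i
    · refine ⟨fun q => q.1 * w q, by fun_prop, by simp, fun x y y' => ?_⟩
      simp only [map_mul, Fin.zero_eta, ev_X0]
      linear_combination x * h3 x y y'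
    · refine ⟨fun q => ev (q.1, q.2.1) z + q.2.2 * w q, by fun_prop, by simp [← ev_zero]; rfl,
        fun x y y' => ?_⟩
      simp only [map_mul, Fin.mk_one, ev_X1]
      linear_combination y' * h3 x y y'

theorem cf_pderiv {K : Type} [Field K] (z : RK K) : cf z 0 1 = constantCoeff (pderiv 1 z) := by
  simp [cf, constantCoeff_eq, coeff_pderiv]

theorem curve_geom (h1 : cf z 0 1 ≠ 0) : ∃ e0, ∀ x ∈ Dk 0 e0,
    (∀ y ∈ Dk 0 e0, ∀ y' ∈ Dk 0 e0, ‖ev (x, y) z - ev (x, y') z‖ = ‖cf z 0 1‖ * ‖y - y'‖) ∧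
    ∀ e ≥ e0, ‖ev (x, 0) z‖ ≤ ‖cf z 0 1‖ * rr p ^ e → ∃ y ∈ Dk 0 e, ev (x, y) z = 0 := by
  obtain ⟨w, h2, h3, h4⟩ := div_diff z
  rw [← cf_pderiv] at h3
  set β := cf z 0 1
  have hβ := norm_pos_iff.2 h1
  obtain ⟨e0, h5⟩ := near (p := p) h2 hβ
  rw [h3] at h5
  refine ⟨e0, fun x hx => ?_⟩
  have h6 : ∀ y ∈ Dk 0 e0, ∀ y' ∈ Dk 0 e0, ‖w (x, y, y') - β‖ < ‖β‖ := fun y hy y' hy' =>
    h5 _ (max_le (mem_D0.1 hx) (max_le (mem_D0.1 hy) (mem_D0.1 hy')))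
  refine ⟨fun y hy y' hy' => by rw [h4, norm_mul, norm_eq_of_lt (h6 y hy y' hy'), mul_comm],
    fun e he h7 => ?_⟩
  obtain ⟨y, hy, h8⟩ := (isCompact_closedBall (0 : ℚ_[p]) (rr p ^ e)).exists_isMinOn
    ⟨0, self_mem_Dk 0 e⟩ (f := fun y => ‖ev (x, y) z‖) (by fun_prop)
  refine ⟨y, hy, by_contra fun h9 => ?_⟩
  have h10 : y - ev (x, y) z / β ∈ Dk 0 e := by
    rw [mem_D0]
    refine norm_sub_le' (mem_D0.1 hy) ?_
    rw [norm_div, div_le_iff₀' hβ]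
    exact le_trans (h8 (self_mem_Dk 0 e)) h7
  have h11 := h4 x (y - ev (x, y) z / β) y
  have h12 := h6 _ (Dk_mono _ he h10) _ (Dk_mono _ he hy)
  refine not_lt.2 (isMinOn_iff.1 h8 _ h10) ?_
  rw [show ev (x, y - ev (x, y) z / β) z =
    -ev (x, y) z * ((w (x, y - ev (x, y) z / β, y) - β) / β) by
    rw [sub_eq_iff_eq_add.1 h11]; field_simp; ring, norm_mul, norm_neg, norm_div]
  exact mul_lt_of_lt_one_right (norm_pos_iff.2 h9) ((div_lt_one hβ).2 h12)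

theorem Rs.poly (T : ℂ) (P : Polynomial ℂ) : Rs T P 0 :=
  Rs.of_reg (Q := 1) (P := P) (by simp) (by simp)

theorem claim_curve (h0 : constantCoeff z = 0) (hz : cf z 0 1 ≠ 0)
    (hf : ∀ i, f i = X 0 ^ a * z ^ b * g i) (hg : ∃ i, constantCoeff (g i) ≠ 0)
    (h1 : bb p T k a = 1 → 0 < k) (h2 : bb p T 0 b ≠ 1) : Claim T f k 0 := by
  intro M μ c M' μ' c' h _
  obtain ⟨rfl, rfl, h3⟩ := LD_form h0 hz hf hg h
  obtain ⟨e0, h4⟩ := Fn_form hf hg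
  obtain ⟨e0', h5⟩ := curve_geom hz
  have hβ := norm_pos_iff.2 hz
  refine ⟨max e0 e0', fun e1 he1 e2 he2 => ?_⟩
  have a1 := le_of_max_le_left he1
  have a2 := le_of_max_le_left he2
  have b1 := le_of_max_le_right he1
  have b2 := le_of_max_le_right he2
  set S : Set ℚ_[p] := {x | ‖ev (x, 0) z‖ ≤ ‖cf z 0 1‖ * rr p ^ e2} with hS
  have mS : MeasurableSet S := measurableSet_le (Continuous.measurable (by fun_prop)) (by fun_prop)
  have o1 : Ok1 (Dk 0 e1 ∩ S) := ⟨(meas_Dk _ _).inter mS, inter_subset_left.trans (D0_sub _)⟩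
  have o2 : Ok1 (Dk 0 e1 \ S) := ⟨(meas_Dk _ _).diff mS, sdiff_subset.trans (D0_sub _)⟩
  have split : ∀ F, Measurable F → ser k 0 (Dk 0 e1 ×ˢ Dk 0 e2) F =
      ser k 0 ((Dk 0 e1 ∩ S) ×ˢ Dk 0 e2) F + ser k 0 ((Dk 0 e1 \ S) ×ˢ Dk 0 e2) F := fun F hF => by
    rw [← ser_union (o1.prod (ok_D0 _)) (o2.prod (ok_D0 _)) hF
      (Set.disjoint_left.2 fun q h5 h6 => h6.1.2 h5.1.2), ← union_prod, inter_union_sdiff]
  obtain ⟨N, hN⟩ := near (p := p) (G := fun x : ℚ_[p] => ev (x, 0) z) (by fun_prop)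
    (mul_pos hβ (rr_pow_pos (p := p) e2))
  have hN' : ∀ x ∈ Dk 0 e1 \ S, rr p ^ N ≤ ‖x‖ := fun x hx => le_of_not_ge fun h6 => hx.2 (by
    have := hN x h6
    rw [Prod.mk_zero_zero, ev_zero, h0, sub_zero] at this
    exact this.le)
  have s1 : ser k 0 ((Dk 0 e1 ∩ S) ×ˢ Dk 0 e2) (Fn f) =
      ser k 0 ((Dk 0 e1 ∩ S) ×ˢ Dk 0 e2) (Fm M μ c) := by
    refine ser_move (o1.prod (ok_D0 _)).1 (meas_Fn f) (o1.prod (ok_D0 _)).1 (meas_Fm _ _ _)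
      fun x => ?_
    by_cases hx : x ∈ Dk 0 e1 ∩ S
    swap
    · exact ⟨0, fun t => ⟨by simp, fun h6 => absurd h6.1 hx⟩⟩
    obtain ⟨h6, h7⟩ := h5 x (Dk_mono _ b1 hx.1)
    obtain ⟨y, hy, h8⟩ := h7 e2 b2 hx.2
    have h9 : ∀ t, t + y ∈ Dk 0 e2 ↔ t ∈ Dk 0 e2 := fun t => by
      conv_lhs => rw [← Dk_eq hy]
      simp [mem_Dk]
    refine ⟨y, fun t => ⟨by simp [h9], fun ht => ?_⟩⟩
    have h10 := h6 _ (Dk_mono _ b2 ((h9 t).2 ht.2)) _ (Dk_mono _ b2 hy)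
    rw [h8, sub_zero, add_sub_cancel_right] at h10
    rw [h4 _ (norm_pair a1 a2 hx.1 ((h9 t).2 ht.2)), h10, Fm, h3]
    ring
  obtain ⟨P1, s2⟩ : ∃ P : Polynomial ℂ, ser k 0 ((Dk 0 e1 \ S) ×ˢ Dk 0 e2) (Fn f) = P := by
    refine ser_poly (N := c + (N * M + e2 * μ)) fun q hq => ?_
    have h6 := (h5 q.1 (Dk_mono _ b1 hq.1.1)).1 _ (Dk_mono _ b2 hq.2) _ (self_mem_Dk _ _)
    have h7 : ‖cf z 0 1‖ * rr p ^ e2 < ‖ev (q.1, 0) z‖ := not_le.1 hq.1.2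
    have h8 := norm_eq_of_lt (h6.trans_lt (lt_of_le_of_lt
      (mul_le_mul_of_nonneg_left (mem_Dk.1 hq.2) hβ.le) h7))
    rw [h4 _ (norm_pair a1 a2 hq.1.1 hq.2), h8]
    calc _ = ‖fun i => constantCoeff (g i)‖ * ((rr p ^ N) ^ M * (‖cf z 0 1‖ * rr p ^ e2) ^ μ) := by
          rw [pow_add, h3]
          ring
      _ ≤ _ := by
        have := hN' _ hq.1
        have := rr_pos (p := p)
        gcongr
  obtain ⟨P2, s3⟩ : ∃ P : Polynomial ℂ, ser k 0 ((Dk 0 e1 \ S) ×ˢ Sph p e2) (Fm M μ c) = P := by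
    refine ser_poly (N := c + (N * M + e2 * μ)) fun q hq => ?_
    rw [Fm, mem_Sph.1 hq.2, pow_add, pow_add, pow_mul, pow_mul]
    have := hN' _ hq.1
    have := rr_pos (p := p)
    gcongr
  rw [← peelY o2 (meas_Fm M μ c) (Fm_y M μ c)
    fun q hq => Fm_le M μ c ((o2.prod (ok_D0 e2)).2 hq)] at s3
  refine (((model_rs (l := 0) (fun h6 => ⟨h1 h6, h2⟩) (fun h6 => absurd h6 h2) c e1 e2).sub
    (Rs.of_reg (by rw [den_eval]; exact sub_ne_zero.2 h2.symm) s3)).add (Rs.poly T P1)).congr ?_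
    (by simp [RR])
  rw [split _ (meas_Fn f), split _ (meas_Fm _ _ _), s1, s2]
  ring

end Pool.Agent.MP_5d9b3c_ag.H72
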