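import Pool.Agent.MP_5d9b3c_ag.H72.Disc

/-!
Haar measure on the p-adic numbers and the weighted measures.
-/

namespace Pool.Agent.MP_5d9b3c_ag.H72

open Set Metric MeasureTheory MeasureTheory.Measure
open scoped ENNReal

variable {p : ℕ} [hp : Fact p.Prime]

noncomputable instance instMS : MeasurableSpace ℚ_[p] := borel _
instance instBS : BorelSpace ℚ_[p] := ⟨rfl⟩

/-- the unit disc -/
def K0 (p : ℕ) [Fact p.Prime] : TopologicalSpace.PositiveCompacts ℚ_[p] :=
  ⟨⟨closedBall 0 1, isCompact_closedBall _ _⟩,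
    ⟨0, interior_maximal ball_subset_closedBall isOpen_ball (by simp)⟩⟩

/-- Haar measure -/
noncomputable def mu (p : ℕ) [Fact p.Prime] : Measure ℚ_[p] := addHaarMeasure (K0 p)

instance : IsAddHaarMeasure (mu p) := by unfold mu; infer_instance

theorem meas_Dk (c : ℚ_[p]) (e : ℕ) : MeasurableSet (Dk c e) := isClosed_closedBall.measurableSet

theorem pre_Dk (c : ℚ_[p]) (e : ℕ) : (fun t => t + c) ⁻¹' Dk c e = Dk 0 e := by
  ext t
  simp [mem_Dk]

theorem mu_Dk (c : ℚ_[p]) (e : ℕ) : mu p (Dk c e) = ENNReal.ofReal (rr p ^ e) := by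
  have h0 : ∀ (c : ℚ_[p]) e, mu p (Dk c e) = mu p (Dk 0 e) := fun c e => by
    rw [← pre_Dk c e, measure_preimage_add_right]
  rw [h0]
  induction e with
  | zero =>
    have : mu p (K0 p) = 1 := addHaarMeasure_self
    simpa [Dk, K0] using this
  | succ e ih =>
    rw [Dk_eq_union, measure_biUnion_finset (kid_disj 0 e) fun _ _ => meas_Dk _ _] at ih
    simp only [h0 (kid _ _ _), Finset.sum_const, Finset.card_range, nsmul_eq_mul] at ih
    have h1 : (p : ℝ≥0∞) ≠ 0 := by exact_mod_cast hp.out.ne_zero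
    rw [← ENNReal.mul_right_inj h1 (by simp), ih, ← ENNReal.ofReal_natCast,
      ← ENNReal.ofReal_mul (by positivity), pow_succ]
    congr 1
    have := (one_lt_p (p := p))
    unfold rr
    field_simp

theorem map_scale {x : ℚ_[p]} (hx : x ≠ 0) : (mu p).map (x⁻¹ * ·) = ‖x‖ₑ • mu p := by
  have key : ∀ {x : ℚ_[p]}, x ≠ 0 → ‖x‖ ≤ 1 → (mu p).map (x⁻¹ * ·) = ‖x‖ₑ • mu p := by
    intro x hx h1
    let φ : ℚ_[p] ≃ₜ+ ℚ_[p] :=
      { Homeomorph.mulLeft₀ x⁻¹ (inv_ne_zero hx) with map_add' := mul_add _ }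
    have : IsAddHaarMeasure ((mu p).map (x⁻¹ * ·)) := φ.isAddHaarMeasure_map (mu p)
    rw [addHaarMeasure_unique ((mu p).map (x⁻¹ * ·)) (K0 p)]
    obtain ⟨e, he⟩ := norm_ex hx h1
    rw [map_apply (by fun_prop) (K0 p).isCompact.measurableSet, ← ofReal_norm, he,
      ← mu_Dk (0 : ℚ_[p])]
    congr 2
    ext y
    have := rr_pow_pos (p := p) e
    simp [K0, mem_D0, he, inv_mul_le_iff₀ this]
  rcases le_total ‖x‖ 1 with h | h
  · exact key hx h
  have h1 := key (inv_ne_zero hx) (by rw [norm_inv]; exact inv_le_one_of_one_le₀ h)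
  have h2 := congrArg (Measure.map (x⁻¹ * ·)) h1
  rw [map_map (by fun_prop) (by fun_prop), Measure.map_smul, inv_inv,
    show ((x⁻¹ * ·) ∘ (x * ·) : ℚ_[p] → ℚ_[p]) = id by ext; simp [hx], map_id] at h2
  conv_rhs => rw [h2, smul_smul, ← enorm_mul, mul_inv_cancel₀ hx, enorm_one, one_smul]

/-- the measure `|x| ^ k dx` -/
noncomputable def mw (p : ℕ) [Fact p.Prime] (k : ℕ) : Measure ℚ_[p] :=
  (mu p).withDensity fun x => ‖x‖ₑ ^ k

instance (k : ℕ) : SFinite (mw p k) := by unfold mw; infer_instance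

theorem mw_zero : mw p 0 = mu p := by simp [mw]

theorem mw_scale {x : ℚ_[p]} (hx : x ≠ 0) (l : ℕ) {S : Set ℚ_[p]} (hS : MeasurableSet S) :
    mw p l S = ‖x‖ₑ ^ (l + 1) * mw p l ((x * ·) ⁻¹' S) := by
  have hS' : MeasurableSet ((x * ·) ⁻¹' S) := hS.preimage (by fun_prop)
  have h1 := lintegral_map (μ := mu p) (g := (x⁻¹ * ·))
    (f := ((x * ·) ⁻¹' S).indicator fun y => ‖x * y‖ₑ ^ l)
    (Measurable.indicator (by fun_prop) hS') (by fun_prop)
  rw [map_scale hx, lintegral_smul_measure, lintegral_indicator hS'] at h1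
  rw [mw, withDensity_apply _ hS, withDensity_apply _ hS', pow_succ', mul_assoc,
    ← lintegral_const_mul _ (by fun_prop), ← lintegral_indicator hS]
  simp only [← mul_pow, ← enorm_mul]
  rw [← smul_eq_mul, h1]
  congr 1
  ext y
  by_cases hy : y ∈ S <;> simp [hx, hy, -enorm_mul]

theorem mw_const {a : ℝ} (l : ℕ) {S : Set ℚ_[p]} (hS : MeasurableSet S)
    (h : ∀ y ∈ S, ‖y‖ = a) : mw p l S = ENNReal.ofReal a ^ l * mw p 0 S := by
  rw [mw_zero, mw, withDensity_apply _ hS, ← setLIntegral_const]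
  refine setLIntegral_congr_fun hS fun y hy => ?_
  simp only [← h y hy, ofReal_norm]

theorem mw_fin (k : ℕ) : mw p k (Dk 0 0) ≠ ⊤ := by
  refine ne_top_of_le_ne_top (b := 1 * mu p (Dk 0 0)) (by simp [mu_Dk]) ?_
  rw [mw, withDensity_apply _ (meas_Dk _ _), ← setLIntegral_const]
  refine setLIntegral_mono' (meas_Dk _ _) fun y hy => pow_le_one₀ (by simp) ?_
  rw [← ofReal_norm, ENNReal.ofReal_le_one]
  simpa [mem_D0] using hy

/-- the measure `|x| ^ k |y| ^ l dx dy` -/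
noncomputable def nu (p : ℕ) [Fact p.Prime] (k l : ℕ) : Measure (ℚ_[p] × ℚ_[p]) :=
  (mw p k).prod (mw p l)

theorem ae_ne_zero : ∀ᵐ x ∂(mu p), x ≠ 0 := by
  simp [ae_iff]

theorem nu_fib {k l k' l' : ℕ} {w : ℝ≥0∞} {S S' : Set (ℚ_[p] × ℚ_[p])} (hS : MeasurableSet S)
    (hS' : MeasurableSet S')
    (h : ∀ x, x ≠ 0 → ‖x‖ₑ ^ k * mw p l (Prod.mk x ⁻¹' S) =
      w * (‖x‖ₑ ^ k' * mw p l' (Prod.mk x ⁻¹' S'))) : nu p k l S = w * nu p k' l' S' := by
  have m1 := measurable_measure_prodMk_left (ν := mw p l) hS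
  have m2 := measurable_measure_prodMk_left (ν := mw p l') hS'
  rw [nu, nu, prod_apply hS, prod_apply hS']
  conv_lhs => rw [mw.eq_def p k, lintegral_withDensity_eq_lintegral_mul _ (by fun_prop) m1]
  conv_rhs => rw [mw.eq_def p k', lintegral_withDensity_eq_lintegral_mul _ (by fun_prop) m2]
  rw [← lintegral_const_mul _ (Measurable.mul (by fun_prop) m2)]
  exact lintegral_congr_ae (ae_ne_zero.mono h)

/-- measurable subsets of the unit square -/
def Ok (R : Set (ℚ_[p] × ℚ_[p])) : Prop := MeasurableSet R ∧ R ⊆ Dk 0 0 ×ˢ Dk 0 0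

theorem nu_fin {k l : ℕ} {R : Set (ℚ_[p] × ℚ_[p])} (h : R ⊆ Dk 0 0 ×ˢ Dk 0 0) :
    nu p k l R ≠ ⊤ := by
  refine ne_top_of_le_ne_top ?_ (measure_mono h)
  rw [nu, prod_prod]
  exact ENNReal.mul_ne_top (mw_fin k) (mw_fin l)

/-- the zeta series of `F` on `R` -/
noncomputable def ser (k l : ℕ) (R : Set (ℚ_[p] × ℚ_[p])) (F : ℚ_[p] × ℚ_[p] → ℝ) :
    PowerSeries ℂ :=
  PowerSeries.mk fun m => ((nu p k l (R ∩ {q | F q = rr p ^ m})).toReal : ℂ)

variable {k l k' l' : ℕ} {R R' : Set (ℚ_[p] × ℚ_[p])} {F F' : ℚ_[p] × ℚ_[p] → ℝ}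

theorem meas_lev (hR : MeasurableSet R) (hF : Measurable F) (a : ℝ) :
    MeasurableSet (R ∩ {q | F q = a}) :=
  hR.inter (measurableSet_eq_fun hF measurable_const)

theorem ser_union (hR : Ok R) (hR' : Ok R') (hF : Measurable F) (h : Disjoint R R') :
    ser k l (R ∪ R') F = ser k l R F + ser k l R' F := by
  ext m
  simp only [ser, map_add, PowerSeries.coeff_mk]
  rw [union_inter_distrib_right, measure_union (h.mono inter_subset_left inter_subset_left)
    (meas_lev hR'.1 hF _), ENNReal.toReal_add (nu_fin (inter_subset_left.trans hR.2))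
    (nu_fin (inter_subset_left.trans hR'.2)), Complex.ofReal_add]

theorem ser_congr (h : ∀ q ∈ R, F q = F' q) : ser k l R F = ser k l R F' := by
  ext m
  simp only [ser, PowerSeries.coeff_mk]
  congr 3
  ext q
  exact and_congr_right fun hq => by simp [h q hq]

theorem ser_swap (hR : MeasurableSet R) (hF : Measurable F) :
    ser k l R F = ser l k (Prod.swap ⁻¹' R) (F ∘ Prod.swap) := by
  ext m
  simp only [ser, PowerSeries.coeff_mk]
  rw [nu, ← prod_swap, map_apply measurable_swap (meas_lev hR hF _)]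
  rfl

theorem ser_fib {w : ℝ} (hw : 0 ≤ w) (hR : MeasurableSet R) (hF : Measurable F)
    (hR' : MeasurableSet R') (hF' : Measurable F')
    (h : ∀ (m : ℕ) x, x ≠ 0 → ‖x‖ₑ ^ k * mw p l {y | (x, y) ∈ R ∧ F (x, y) = rr p ^ m} =
      ENNReal.ofReal w * (‖x‖ₑ ^ k' * mw p l' {y | (x, y) ∈ R' ∧ F' (x, y) = rr p ^ m})) :
    ser k l R F = PowerSeries.C (w : ℂ) * ser k' l' R' F' := by
  ext m
  simp only [ser, PowerSeries.coeff_mk, PowerSeries.coeff_C_mul]
  rw [nu_fib (meas_lev hR hF _) (meas_lev hR' hF' _) (h m), ENNReal.toReal_mul,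
    ENNReal.toReal_ofReal hw, Complex.ofReal_mul]

theorem meas_sec (hR : MeasurableSet R) (hF : Measurable F) (x : ℚ_[p]) (a : ℝ) :
    MeasurableSet {y | (x, y) ∈ R ∧ F (x, y) = a} :=
  measurable_prodMk_left (meas_lev hR hF a)

theorem ser_blow (hR : MeasurableSet R) (hR' : MeasurableSet R') (hF : Measurable F)
    (h : ∀ x t, x ≠ 0 → ((x, x * t) ∈ R ↔ (x, t) ∈ R')) :
    ser k l R F = ser (k + l + 1) l R' fun q => F (q.1, q.1 * q.2) := by
  rw [ser_fib (w := 1) (k' := k + l + 1) (l' := l) zero_le_one hR hF hR'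
    (F' := fun q => F (q.1, q.1 * q.2)) (by fun_prop)]
  · simp
  intro m x hx
  rw [mw_scale hx l (meas_sec hR hF x _), ENNReal.ofReal_one, one_mul, ← mul_assoc, ← pow_add]
  congr 2
  ext t
  simp [h x t hx]

theorem ser_const {a : ℝ} (ha : 0 ≤ a) (hR : MeasurableSet R) (hF : Measurable F)
    (h : ∀ q ∈ R, ‖q.2‖ = a) : ser k l R F = PowerSeries.C ((a : ℂ) ^ l) * ser k 0 R F := by
  rw [ser_fib (w := a ^ l) (k' := k) (l' := 0) (by positivity) hR hF hR hF]
  · simp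
  intro m x _
  rw [mw_const l (meas_sec hR hF x _) fun y hy => h _ hy.1, ENNReal.ofReal_pow ha, mul_left_comm]

theorem ser_move (hR : MeasurableSet R) (hF : Measurable F) (hR' : MeasurableSet R')
    (hF' : Measurable F')
    (h : ∀ x, ∃ c, ∀ t, ((x, t + c) ∈ R ↔ (x, t) ∈ R') ∧ ((x, t) ∈ R' → F (x, t + c) = F' (x, t))) :
    ser k 0 R F = ser k 0 R' F' := by
  rw [ser_fib (w := 1) (k' := k) (l' := 0) zero_le_one hR hF hR' hF']
  · simp
  intro m x _
  obtain ⟨c, hc⟩ := h x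
  rw [ENNReal.ofReal_one, one_mul, mw_zero, ← measure_preimage_add_right (mu p) c]
  congr 2
  ext t
  simp only [mem_preimage, mem_ofPred_eq, (hc t).1]
  exact and_congr_right fun h1 => by rw [(hc t).2 h1]

theorem ser_poly {N : ℕ} (h : ∀ q ∈ R, rr p ^ N ≤ F q) :
    ∃ P : Polynomial ℂ, ser k l R F = P := by
  refine ⟨PowerSeries.trunc (N + 1) (ser k l R F), ?_⟩
  ext m
  rw [Polynomial.coeff_coe, PowerSeries.coeff_trunc]
  split_ifs with h1
  · rfl
  simp only [ser, PowerSeries.coeff_mk]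
  rw [show R ∩ {q | F q = rr p ^ m} = ∅ from eq_empty_of_forall_notMem fun q hq => by
    have := h q hq.1
    rw [hq.2, rr_pow_le] at this
    omega]
  simp

theorem ser_cell {n : ℕ} (h : ∀ q ∈ R, F q = rr p ^ n) :
    ser k l R F = PowerSeries.C ((nu p k l R).toReal : ℂ) * PowerSeries.X ^ n := by
  ext m
  simp only [ser, PowerSeries.coeff_mk, PowerSeries.coeff_C_mul, PowerSeries.coeff_X_pow]
  split_ifs with h1
  · rw [inter_eq_left.2 fun q hq => by simp [h q hq, h1], mul_one]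
  · rw [show R ∩ {q | F q = rr p ^ m} = ∅ from eq_empty_of_forall_notMem fun q hq =>
      h1 (rr_pow_inj (hq.2.symm.trans (h q hq.1)))]
    simp

theorem ser_scale {A : Set ℚ_[p]} {b e : ℕ} (hA : MeasurableSet A) (hF : Measurable F)
    (h : ∀ x y, F (x, p * y) = rr p ^ b * F (x, y)) (h1 : ∀ q ∈ A ×ˢ Dk 0 e, F q ≤ 1) :
    ser k l (A ×ˢ Dk 0 (e + 1)) F =
      PowerSeries.C ((rr p : ℂ) ^ (l + 1)) * PowerSeries.X ^ b * ser k l (A ×ˢ Dk 0 e) F := by
  have h2 : ∀ y : ℚ_[p], p * y ∈ Dk 0 (e + 1) ↔ y ∈ Dk 0 e := fun y => by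
    rw [mem_D0, mem_D0, norm_mul, norm_pp, pow_succ', mul_le_mul_iff_right₀ rr_pos]
  ext m
  rw [mul_assoc, PowerSeries.coeff_C_mul, PowerSeries.coeff_X_pow_mul']
  simp only [ser, PowerSeries.coeff_mk]
  split_ifs with h3
  · rw [nu_fib (k' := k) (l' := l) (w := ENNReal.ofReal (rr p ^ (l + 1)))
      (meas_lev (hA.prod (meas_Dk _ _)) hF _) (meas_lev (hA.prod (meas_Dk 0 e)) hF (rr p ^ (m - b))),
      ENNReal.toReal_mul, ENNReal.toReal_ofReal (rr_pow_pos _).le]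
    · simp
    intro x _
    rw [mw_scale pp_ne l (measurable_prodMk_left (meas_lev (hA.prod (meas_Dk _ _)) hF _)),
      ← ofReal_norm (p : ℚ_[p]), norm_pp, ENNReal.ofReal_pow rr_pos.le, mul_left_comm]
    congr 3
    ext y
    obtain ⟨j, rfl⟩ := Nat.exists_eq_add_of_le h3
    simp [h, h2, pow_add, (rr_pow_pos (p := p) b).ne']
  · rw [show (A ×ˢ Dk 0 (e + 1)) ∩ {q | F q = rr p ^ m} = ∅ from
      eq_empty_of_forall_notMem fun q hq => by
        obtain ⟨x, y⟩ := q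
        obtain ⟨y, rfl⟩ : ∃ y' : ℚ_[p], y = p * y' := ⟨y / p, by field_simp [pp_ne (p := p)]⟩
        have h4 := h1 (x, y) ⟨hq.1.1, (h2 y).1 hq.1.2⟩
        have h5 := hq.2
        rw [mem_ofPred_eq, h] at h5
        have h6 := rr_pow_lt (p := p).2 (not_le.1 h3)
        nlinarith [rr_pow_pos (p := p) b]]
    simp

end Pool.Agent.MP_5d9b3c_ag.H72
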