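import Mathlib

/-!
Values and residues of rational power series at a point.
-/

namespace Pool.Agent.MP_5d9b3c_ag.H72

open Polynomial

/-- `S` is a rational function regular at `T` with value `v` -/
def Val (T : ℂ) (S : PowerSeries ℂ) (v : ℂ) : Prop :=
  ∃ P Q : ℂ[X], Q.eval T ≠ 0 ∧ (Q : PowerSeries ℂ) * S = P ∧ P.eval T = v * Q.eval T

/-- `S` has at most a simple pole at `T`, with residue `v` -/
def Rs (T : ℂ) (S : PowerSeries ℂ) (v : ℂ) : Prop :=
  Val T (((X - C T : ℂ[X]) : PowerSeries ℂ) * S) v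

variable {T v v' : ℂ} {S S' : PowerSeries ℂ}

theorem Val.add (h : Val T S v) (h' : Val T S' v') : Val T (S + S') (v + v') := by
  obtain ⟨P, Q, h1, h2, h3⟩ := h
  obtain ⟨P', Q', h1', h2', h3'⟩ := h'
  refine ⟨P * Q' + P' * Q, Q * Q', by simp [h1, h1'], ?_, by simp [h3, h3']; ring⟩
  simp only [coe_add, coe_mul, ← h2, ← h2']
  ring

theorem Val.cmul (h : Val T S v) (c : ℂ) : Val T (PowerSeries.C c * S) (c * v) := by
  obtain ⟨P, Q, h1, h2, h3⟩ := h
  refine ⟨C c * P, Q, h1, ?_, by simp [h3]; ring⟩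
  simp only [coe_mul, coe_C, ← h2]
  ring

theorem Rs.congr (h : Rs T S v) (h1 : S' = S) (h2 : v' = v) : Rs T S' v' := by rwa [h1, h2]

theorem Rs.add (h : Rs T S v) (h' : Rs T S' v') : Rs T (S + S') (v + v') := by
  unfold Rs
  rw [mul_add]
  exact Val.add h h'

theorem Rs.cmul (h : Rs T S v) (c : ℂ) : Rs T (PowerSeries.C c * S) (c * v) := by
  unfold Rs
  rw [mul_left_comm]
  exact Val.cmul h c

theorem Rs.sub (h : Rs T S v) (h' : Rs T S' v') : Rs T (S - S') (v - v') :=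
  (h.add (h'.cmul (-1))).congr (by simp [sub_eq_add_neg]) (by ring)

theorem Rs.zero : Rs T 0 0 := ⟨0, 1, by simp, by simp, by simp⟩

theorem Rs.sum {ι : Type} (s : Finset ι) {S : ι → PowerSeries ℂ} {v : ι → ℂ}
    (h : ∀ i ∈ s, Rs T (S i) (v i)) : Rs T (∑ i ∈ s, S i) (∑ i ∈ s, v i) := by
  classical
  induction s using Finset.induction_on with
  | empty => simpa using Rs.zero
  | insert a s ha ih =>
    rw [Finset.sum_insert ha, Finset.sum_insert ha]
    exact (h a (by simp)).add (ih fun i hi => h i (by simp [hi]))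

theorem Rs.of_reg {P Q : ℂ[X]} (hQ : Q.eval T ≠ 0) (h : (Q : PowerSeries ℂ) * S = P) :
    Rs T S 0 :=
  ⟨(X - C T) * P, Q, hQ, by rw [coe_mul, ← h]; ring, by simp⟩

theorem Rs.reg (h : Rs T S 0) :
    ∃ P Q : ℂ[X], Q.eval T ≠ 0 ∧ (Q : PowerSeries ℂ) * S = P := by
  obtain ⟨P, Q, h1, h2, h3⟩ := h
  obtain ⟨P1, rfl⟩ := dvd_iff_isRoot.2 (show P.IsRoot T by simpa using h3)
  refine ⟨P1, Q, h1, mul_left_cancel₀ (a := ((X - C T : ℂ[X]) : PowerSeries ℂ)) ?_ ?_⟩
  · rw [Ne, coe_eq_zero_iff]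
    exact X_sub_C_ne_zero T
  · rw [mul_left_comm, h2, coe_mul]

theorem Rs.simple {a : ℂ} {M : ℕ} {P Q : ℂ[X]} (hT : T ≠ 0) (hM : M ≠ 0) (ha : a * T ^ M = 1)
    (hQ : Q.eval T ≠ 0) (h : (((1 - C a * X ^ M) * Q : ℂ[X]) : PowerSeries ℂ) * S = P) :
    Rs T S (-T / M * (P.eval T / Q.eval T)) := by
  have hM' : (M : ℂ) ≠ 0 := by exact_mod_cast hM
  set G : ℂ[X] := -C a * ∑ i ∈ Finset.range M, X ^ i * C T ^ (M - 1 - i) with hG
  have e1 : (1 - C a * X ^ M : ℂ[X]) = (X - C T) * G := by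
    have h1 := Commute.geom_sum₂_mul (Commute.all (X : ℂ[X]) (C T)) M
    have h2 := congrArg C ha
    rw [map_mul, map_pow, map_one] at h2
    rw [hG]
    linear_combination C a * h1 - h2
  have e2 : G.eval T = -M / T := by
    simp only [hG, eval_mul, eval_neg, eval_C, eval_finsetSum, eval_pow, eval_X]
    rw [Finset.sum_congr rfl (g := fun _ => T ^ (M - 1)) fun i hi => by
      rw [← pow_add]
      congr 1
      have := Finset.mem_range.1 hi
      omega]
    obtain ⟨m, rfl⟩ := Nat.exists_eq_succ_of_ne_zero hM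
    simp only [Finset.sum_const, Finset.card_range, nsmul_eq_mul, Nat.succ_sub_one]
    rw [pow_succ] at ha
    field_simp
    linear_combination -ha
  refine ⟨P, G * Q, ?_, ?_, ?_⟩
  · rw [eval_mul, e2]
    exact mul_ne_zero (div_ne_zero (neg_ne_zero.2 hM') hT) hQ
  · rw [← h, e1]
    simp only [coe_mul]
    ring
  · rw [eval_mul, e2]
    field_simp

end Pool.Agent.MP_5d9b3c_ag.H72
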