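import Pool.Agent.MP_5d9b3c_ag.H72.Meas
import Pool.Agent.MP_5d9b3c_ag.H72.Val

/-!
The zeta series of a monomial.
-/

namespace Pool.Agent.MP_5d9b3c_ag.H72

open Set Polynomial

variable {p : ℕ} [hp : Fact p.Prime]

/-- the circle of radius `p ^ (-e)` -/
def Sph (p : ℕ) [Fact p.Prime] (e : ℕ) : Set ℚ_[p] := Dk 0 e \ Dk 0 (e + 1)

theorem mem_Sph {e : ℕ} {y : ℚ_[p]} : y ∈ Sph p e ↔ ‖y‖ = rr p ^ e := by
  rw [Sph, mem_sdiff, mem_D0, mem_D0, ← norm_lt_iff, not_lt, ← le_antisymm_iff]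

theorem meas_Sph (e : ℕ) : MeasurableSet (Sph p e) := (meas_Dk _ _).diff (meas_Dk _ _)

theorem D0_sub (e : ℕ) : Dk (0 : ℚ_[p]) e ⊆ Dk 0 0 := Dk_mono _ (Nat.zero_le e)

theorem Sph_sub (e : ℕ) : Sph p e ⊆ Dk 0 0 := sdiff_subset.trans (D0_sub e)

theorem mw_Sph (l e : ℕ) : (mw p l (Sph p e)).toReal = (1 - rr p) * (rr p ^ (l + 1)) ^ e := by
  rw [mw_const l (meas_Sph e) fun y hy => mem_Sph.1 hy, mw_zero, Sph,
    MeasureTheory.measure_sdiff (Dk_mono _ (Nat.le_succ e)) (meas_Dk _ _).nullMeasurableSet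
      (by simp [mu_Dk]), mu_Dk, mu_Dk, ← ENNReal.ofReal_sub _ (rr_pow_pos _).le,
    ENNReal.toReal_mul, ENNReal.toReal_pow, ENNReal.toReal_ofReal (rr_pow_pos _).le,
    ENNReal.toReal_ofReal (sub_nonneg.2 (rr_pow_le.2 (Nat.le_add_right e 1)))]
  ring

/-- measurable subsets of the unit disc -/
def Ok1 (A : Set ℚ_[p]) : Prop := MeasurableSet A ∧ A ⊆ Dk 0 0

theorem Ok1.prod {A B : Set ℚ_[p]} (hA : Ok1 A) (hB : Ok1 B) : Ok (A ×ˢ B) :=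
  ⟨hA.1.prod hB.1, prod_mono hA.2 hB.2⟩

theorem ok_Dk {c : ℚ_[p]} (hc : ‖c‖ ≤ 1) (e : ℕ) : Ok1 (Dk c e) := ⟨meas_Dk _ _, Dk_sub hc e⟩
theorem ok_D0 (e : ℕ) : Ok1 (Dk (0 : ℚ_[p]) e) := ok_Dk (by simp) e
theorem ok_Sph (e : ℕ) : Ok1 (Sph p e) := ⟨meas_Sph _, Sph_sub e⟩

variable {k l : ℕ} {F : ℚ_[p] × ℚ_[p] → ℝ}

theorem ser_swap' {A B : Set ℚ_[p]} (hA : Ok1 A) (hB : Ok1 B) (hF : Measurable F) :
    ser k l (A ×ˢ B) F = ser l k (B ×ˢ A) (F ∘ Prod.swap) := by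
  rw [ser_swap (hA.prod hB).1 hF, preimage_swap_prod]

theorem ser_splitY {A : Set ℚ_[p]} (hA : Ok1 A) (hF : Measurable F) (e : ℕ) :
    ser k l (A ×ˢ Dk 0 e) F = ser k l (A ×ˢ Sph p e) F + ser k l (A ×ˢ Dk 0 (e + 1)) F := by
  rw [← ser_union (hA.prod (ok_Sph e)) (hA.prod (ok_D0 _)) hF
    (Disjoint.set_prod_right disjoint_sdiff_left _ _), ← prod_union, Sph,
    sdiff_union_of_subset (Dk_mono _ (Nat.le_succ e))]

theorem ser_splitX {B : Set ℚ_[p]} (hB : Ok1 B) (hF : Measurable F) (e : ℕ) :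
    ser k l (Dk 0 e ×ˢ B) F = ser k l (Sph p e ×ˢ B) F + ser k l (Dk 0 (e + 1) ×ˢ B) F := by
  rw [← ser_union ((ok_Sph e).prod hB) ((ok_D0 _).prod hB) hF
    (Disjoint.set_prod_left disjoint_sdiff_left _ _), ← union_prod, Sph,
    sdiff_union_of_subset (Dk_mono _ (Nat.le_succ e))]

/-- the denominator -/
noncomputable def den (p l b : ℕ) : ℂ[X] := 1 - C ((rr p : ℂ) ^ (l + 1)) * X ^ b

theorem peelY {A : Set ℚ_[p]} {b e : ℕ} (hA : Ok1 A) (hF : Measurable F)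
    (h : ∀ x y, F (x, p * y) = rr p ^ b * F (x, y)) (h1 : ∀ q ∈ A ×ˢ Dk 0 e, F q ≤ 1) :
    (den p l b : PowerSeries ℂ) * ser k l (A ×ˢ Dk 0 e) F = ser k l (A ×ˢ Sph p e) F := by
  have h2 := ser_splitY (k := k) (l := l) hA hF e
  rw [ser_scale hA.1 hF h h1] at h2
  simp only [den, coe_sub, coe_one, coe_mul, coe_C, coe_pow, coe_X]
  linear_combination h2

theorem peelX {B : Set ℚ_[p]} {a e : ℕ} (hB : Ok1 B) (hF : Measurable F)
    (h : ∀ x y, F (p * x, y) = rr p ^ a * F (x, y)) (h1 : ∀ q ∈ Dk 0 e ×ˢ B, F q ≤ 1) :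
    (den p k a : PowerSeries ℂ) * ser k l (Dk 0 e ×ˢ B) F = ser k l (Sph p e ×ˢ B) F := by
  rw [ser_swap' (ok_D0 e) hB hF, ser_swap' (ok_Sph e) hB hF]
  exact peelY hB (hF.comp measurable_swap) (fun x y => h y x) fun q hq => h1 _ ⟨hq.2, hq.1⟩

/-- the monomial model -/
noncomputable def Fm (a b c : ℕ) (q : ℚ_[p] × ℚ_[p]) : ℝ := rr p ^ c * (‖q.1‖ ^ a * ‖q.2‖ ^ b)

theorem meas_Fm (a b c : ℕ) : Measurable (Fm (p := p) a b c) := by
  unfold Fm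
  fun_prop

theorem Fm_le (a b c : ℕ) {q : ℚ_[p] × ℚ_[p]} (h : q ∈ Dk 0 0 ×ˢ Dk 0 0) : Fm a b c q ≤ 1 := by
  have h1 : ‖q.1‖ ≤ 1 := by simpa [mem_D0] using h.1
  have h2 : ‖q.2‖ ≤ 1 := by simpa [mem_D0] using h.2
  exact mul_le_one₀ (rr_pow_le_one c) (by positivity)
    (mul_le_one₀ (pow_le_one₀ (norm_nonneg _) h1) (by positivity) (pow_le_one₀ (norm_nonneg _) h2))

theorem Fm_y (a b c : ℕ) (x y : ℚ_[p]) : Fm a b c (x, p * y) = rr p ^ b * Fm a b c (x, y) := by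
  simp only [Fm, norm_mul, norm_pp]
  ring

theorem Fm_x (a b c : ℕ) (x y : ℚ_[p]) :
    Fm a b c ((p : ℚ_[p]) * x, y) = rr p ^ a * Fm a b c (x, y) := by
  simp only [Fm, norm_mul, norm_pp]
  ring

/-- the ratio of the geometric series -/
noncomputable def bb (p : ℕ) (T : ℂ) (l b : ℕ) : ℂ := (rr p : ℂ) ^ (l + 1) * T ^ b

omit hp in
theorem den_eval (T : ℂ) (l b : ℕ) : (den p l b).eval T = 1 - bb p T l b := by
  simp [den, bb]

theorem model_eq (k l a b c e1 e2 : ℕ) : ∃ P : ℂ[X],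
    ((den p k a * den p l b : ℂ[X]) : PowerSeries ℂ) *
      ser k l (Dk 0 e1 ×ˢ Dk 0 e2) (Fm (p := p) a b c) = P ∧
    ∀ T, P.eval T = (1 - rr p) ^ 2 * T ^ c * bb p T k a ^ e1 * bb p T l b ^ e2 := by
  refine ⟨C ((nu p k l (Sph p e1 ×ˢ Sph p e2)).toReal : ℂ) * X ^ (c + (e1 * a + e2 * b)), ?_,
    fun T => ?_⟩
  · rw [coe_mul, mul_assoc, peelY (ok_D0 e1) (meas_Fm a b c) (Fm_y a b c)
      fun q hq => Fm_le a b c (((ok_D0 e1).prod (ok_D0 e2)).2 hq),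
      peelX (ok_Sph e2) (meas_Fm a b c) (Fm_x a b c)
      fun q hq => Fm_le a b c (((ok_D0 e1).prod (ok_Sph e2)).2 hq),
      ser_cell (n := c + (e1 * a + e2 * b))]
    · simp
    intro q hq
    rw [Fm, mem_Sph.1 hq.1, mem_Sph.1 hq.2]
    ring
  · rw [nu, MeasureTheory.Measure.prod_prod, ENNReal.toReal_mul, mw_Sph, mw_Sph]
    simp only [bb, eval_mul, eval_C, eval_pow, eval_X]
    push_cast
    ring

theorem bb_one {T : ℂ} {k a : ℕ} (h : bb p T k a = 1) : T ≠ 0 ∧ a ≠ 0 := by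
  have ha : a ≠ 0 := by
    rintro rfl
    rw [bb, pow_zero, mul_one] at h
    have h1 : rr p ^ (k + 1) = rr p ^ 0 := by exact_mod_cast h
    simpa using rr_pow_inj h1
  refine ⟨?_, ha⟩
  rintro rfl
  simp [bb, ha] at h

open Classical in
/-- the contribution of the divisor `x = 0` to the residue -/
noncomputable def RR (p : ℕ) (T : ℂ) (k l a b c e : ℕ) : ℂ :=
  if 0 < k ∧ bb p T k a = 1 then
    -T / a * ((1 - rr p) ^ 2 * T ^ c * bb p T l b ^ e / (1 - bb p T l b)) else 0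

theorem model_rs {T : ℂ} {k l a b : ℕ} (h1 : bb p T k a = 1 → 0 < k ∧ bb p T l b ≠ 1)
    (h2 : bb p T l b = 1 → 0 < l) (c e1 e2 : ℕ) :
    Rs T (ser k l (Dk 0 e1 ×ˢ Dk 0 e2) (Fm (p := p) a b c))
      (RR p T k l a b c e2 + RR p T l k b a c e1) := by
  obtain ⟨P, h3, h4⟩ := model_eq (p := p) k l a b c e1 e2
  by_cases hA : bb p T k a = 1
  · have hB := (h1 hA).2
    refine (Rs.simple (bb_one hA).1 (bb_one hA).2 hA
      (by rw [den_eval]; exact sub_ne_zero.2 hB.symm) h3).congr rfl ?_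
    simp [RR, hA, hB, (h1 hA).1, h4, den_eval]
  by_cases hB : bb p T l b = 1
  · rw [mul_comm (den p k a)] at h3
    refine (Rs.simple (bb_one hB).1 (bb_one hB).2 hB
      (by rw [den_eval]; exact sub_ne_zero.2 (Ne.symm hA)) h3).congr rfl ?_
    simp [RR, hA, hB, h2 hB, h4, den_eval]
  · refine (Rs.of_reg ?_ h3).congr rfl (by simp [RR, hA, hB])
    rw [eval_mul, den_eval, den_eval]
    exact mul_ne_zero (sub_ne_zero.2 (Ne.symm hA)) (sub_ne_zero.2 (Ne.symm hB))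

end Pool.Agent.MP_5d9b3c_ag.H72
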